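import Pool.Agent.Helper26.BXD.Nsv

/-! NO ALGEBRAIC RELATIONS BEYOND THE TOP EXPONENT. If the gradients of all admissible forms of a class of labels at the
point `X` are typically at most `2 ^ (θ n)` then a form which is known to a label of the class and has size
`2 ^ (-σ n)` on the cell of the point has derivatives of order `a` at most `2 ^ ((θ a - σ) n)` (squares for forms); if
`θ < 1` then it is enough to know its value at the point. -/

set_option autoImplicit false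

namespace Pool.Agent.Helper26.BXD

open Finset Filter Topology Matrix MvPolynomial Pool.Agent.Helper69.RK Pool.Agent.Helper31.EC
open Pool.Agent.Helper31.EC.Sp
open Pool.Agent.Helper40.EL Pool.Agent.Helper89.LX Pool.Agent.Helper3.LF Pool.Agent.Helper84.MT
open Pool.Agent.Helper95.LF
open Pool.Agent.Helper3.PR (cutm cutm_cpd cutFD)
open Pool.Agent.Helper14.MC (gx vx vx_UB)

noncomputable section

variable {M D : ℕ}

/-! ### value and gradient on a cell -/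

theorem node_near (x : Fin M → ℝ) {r : ℝ} (hr : 0 ≤ r) (j : Fin M → Fin (D + 1)) (i : Fin M) :
    |nodp D x r j i - x i| ≤ 1 * r := by
  unfold nodp
  rw [add_sub_cancel_left, abs_mul, abs_of_nonneg hr, abs_of_nonneg (nod_nonneg D _), one_mul]
  exact mul_le_of_le_one_right hr (nod_le D _ (Nat.le_of_lt_succ (j i).2))

theorem val_node (q : MvPolynomial (Fin M) ℝ) (hq : q.totalDegree ≤ D) {r : ℝ} (hr : 0 < r) (x : Fin M → ℝ)
    (j : Fin M → Fin (D + 1)) : (eval (nodp D x r j) q) ^ 2 ≤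
      2 * (eval x q) ^ 2 + 2 * ((M * Cm M D) ^ 2 * r ^ 2 * ga D q r x) := by
  have hCm := Cm_one M D
  have hg := ga_nonneg (D := D) q r x
  have h1 : |eval (nodp D x r j) q - eval x q| ≤ M * (r * (Cm M D * Real.sqrt (ga D q r x))) :=
    mean_val q x _ hr.le (fun i => (node_near x hr.le j i).trans_eq (one_mul r)) fun i z hz => by
      have h2 := val_le (D := D) (pderiv i q) (pderiv_tdeg q hq i) r 1 hr le_rfl x z (fun i => (hz i).trans_eq (one_mul r).symm)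
      rw [one_pow, mul_one] at h2
      have h3 : ph D (pderiv i q) r x ≤ ga D q r x := by
        unfold ga
        exact Finset.single_le_sum (f := fun i => ph D (pderiv i q) r x) (fun _ _ => ph_nonneg _ _ _)
          (Finset.mem_univ i)
      have h4 : (eval z (pderiv i q)) ^ 2 ≤ (Cm M D * Real.sqrt (ga D q r x)) ^ 2 := by
        rw [mul_pow, Real.sq_sqrt hg]
        exact h2.trans (mul_le_mul_of_nonneg_left h3 (by positivity))
      exact abs_le_of_sq_le_sq h4 (by positivity)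
  have h5 : (eval (nodp D x r j) q - eval x q) ^ 2 ≤ (M * Cm M D) ^ 2 * r ^ 2 * ga D q r x := by
    rw [← sq_abs]
    refine (pow_le_pow_left₀ (abs_nonneg _) h1 2).trans (le_of_eq ?_)
    rw [mul_pow, mul_pow, mul_pow, mul_pow, Real.sq_sqrt hg]
    ring
  have h6 : eval (nodp D x r j) q = eval x q + (eval (nodp D x r j) q - eval x q) := by ring
  rw [h6]
  nlinarith [sq_nonneg (eval x q - (eval (nodp D x r j) q - eval x q))]

theorem phi_dM_gam (r : ℝ) (A : Matrix (Mon M D) (Mon M D) ℝ) (p : Fin M → ℝ) :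
    ∑ i, phi r (dM i A) p = gam r A p := by
  unfold gam
  exact Finset.sum_congr rfl fun i _ => phi_dM i r A p

/-- the size on a cell from the value at the corner and the size of the gradient -/
theorem phi_le_val {A : Matrix (Mon M D) (Mon M D) ℝ} (hA : A.IsSymm) (h0 : ∀ v, 0 ≤ v ⬝ᵥ (A *ᵥ v)) (x : Fin M → ℝ)
    {r : ℝ} (hr : 0 < r) : phi r A x ≤
      nn M D * (2 * (vv x ⬝ᵥ (A *ᵥ vv x)) + 2 * ((M * Cm M D) ^ 2 * r ^ 2 * ∑ i, phi r (dM i A) x)) := by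
  rw [phi_dM_gam]
  obtain ⟨C, rfl⟩ := exists_factor0 A hA h0
  rw [gam_rows]
  unfold phi
  have h1 : ∀ j ∈ (Finset.univ : Finset (Fin M → Fin (D + 1))),
      vv (D := D) (nodp D x r j) ⬝ᵥ ((C.transpose * C) *ᵥ vv (nodp D x r j)) ≤
        2 * (vv x ⬝ᵥ ((C.transpose * C) *ᵥ vv x)) +
          2 * ((M * Cm M D) ^ 2 * r ^ 2 * ∑ k, ga D (pol (C k)) r x) := by
    intro j _
    rw [qf_rows, qf_rows, Finset.mul_sum, Finset.mul_sum, Finset.mul_sum, ← Finset.sum_add_distrib]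
    refine Finset.sum_le_sum fun k _ => ?_
    rw [← eval_pol, ← eval_pol]
    exact val_node (pol (C k)) (Pool.Agent.Helper3.LF.pol_deg _) hr x j
  refine (Finset.sum_le_card_nsmul _ _ _ h1).trans (le_of_eq ?_)
  rw [nsmul_eq_mul, card_nodes]

variable {S : Sp} {κ : Type}

/-! ### bounded gradients -/

/-- the gradients of all admissible forms of the class `C` at the point `X` are typically at most `2 ^ (θ n)` -/
def TB (C : LC S) (X : S.VV M) (A : κ → Part S) (θ : ℝ) : Prop :=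
  ∀ (D : ℕ) (y : ∀ k, FD (S.F k) (Mon M D)), (gaq X D).AdfK C A y → ∀ (i : Fin M) (e : ℝ), 0 < e →
    Tendsto (fun k => (y k).l.T.pb (fun ω => ¬ (Pi.single i (1 : ℝ) : Fin M → ℝ) ⬝ᵥ
      (Jq (S.dl 1 k) ((y k).g ω) (X.v k ((y k).l.p.π ω)) *ᵥ (Pi.single i (1 : ℝ))) ≤
        2 ^ (2 * (θ + e) * (S.F k).n))) UF (𝓝 0)

variable {C : LC S} {X : S.VV M} {A : κ → Part S} {l : Lab S} {θ : ℝ}

theorem TB.mono {θ' : ℝ} (h : TB C X A θ) (hθ : θ ≤ θ') : TB C X A θ' := fun D y hy i e he => by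
  refine squeeze_zero' (Eventually.of_forall fun k => FSp.pb_nonneg _ _) (Eventually.of_forall fun k => ?_)
    (h D y hy i e he)
  apply FSp.pb_mono
  intro ω _ h2 h3
  apply h2
  refine h3.trans (Real.rpow_le_rpow_of_exponent_le (by norm_num) ?_)
  exact mul_le_mul_of_nonneg_right (by linarith) (S.F k).pos.le

/-- a typical bound of the volumes is enough -/
theorem TB.of_gx (h : ∀ (D : ℕ) (y : ∀ k, FD (S.F k) (Mon M D)), (gaq X D).AdfK C A y → ∀ e : ℝ, 0 < e →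
    Tendsto (fun k => (y k).l.T.pb (fun ω => ¬ gx X k ((y k).l.p.π ω) ((y k).g ω) ≤ θ + e)) UF (𝓝 0)) :
    TB C X A θ := by
  intro D y hy i e he
  have hv : ∀ᶠ k in UF, ∀ ω, (y k).l.T.μ ω ≠ 0 → Cpd ((gaq X D).cp k) ((y k).g ω) := by
    filter_upwards [hy.1 1 one_pos] with k hk ω hω
    exact (hk.2.1 ω hω).1
  refine squeeze_zero' (Eventually.of_forall fun k => FSp.pb_nonneg _ _) ?_ (h D y hy e he)
  filter_upwards [hv] with k hk
  apply FSp.pb_mono
  intro ω hω h3 h5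
  apply h3
  obtain ⟨s1, s2, -⟩ := hk ω hω
  have hn := (S.F k).pos
  unfold gx at h5
  have s3 : ∀ x : Mon M D → ℝ, 0 ≤ x ⬝ᵥ ((y k).g ω *ᵥ x) := fun x => (self_nonneg' x).trans (s2 x)
  have hG1 := one_le_GQ (S.dl 1 k) s1 s3 (X.v k ((y k).l.p.π ω))
  rw [div_le_iff₀ (by positivity), Real.logb_le_iff_le_rpow (by norm_num) (by linarith)] at h5
  have e1 : (θ + e) * (2 * (S.F k).n) = 2 * (θ + e) * (S.F k).n := by ring
  rw [e1] at h5
  have hd := det_ge_one_add (1 + Jq (S.dl 1 k) ((y k).g ω) (X.v k ((y k).l.p.π ω)))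
    (one_Jq_symm _ s1 _) (one_Jq_ge _ s3 _) (Pi.single i 1) (by
      intro h0
      have := congrFun h0 i
      rw [Pi.single_eq_same] at this
      exact one_ne_zero this)
    (1 + (Pi.single i (1 : ℝ) : Fin M → ℝ) ⬝ᵥ (Jq (S.dl 1 k) ((y k).g ω)
      (X.v k ((y k).l.p.π ω)) *ᵥ (Pi.single i (1 : ℝ)))) (by
      rw [dv_add, one_dv, single_sq, mul_one])
  have hd' : 1 + (Pi.single i (1 : ℝ) : Fin M → ℝ) ⬝ᵥ (Jq (S.dl 1 k) ((y k).g ω)
      (X.v k ((y k).l.p.π ω)) *ᵥ (Pi.single i (1 : ℝ))) ≤ 2 ^ (2 * (θ + e) * (S.F k).n) := hd.trans h5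
  linarith

theorem NG.tb (hN : NG C X A) : TB C X A 0 := TB.of_gx fun D y hy e he => by
  have := hN.typ hy e he
  simpa only [zero_add] using this

/-- the form multiplied by a constant -/
def Fm.sc (G : Fm l M D) (c : ℕ → ℝ) (hc : ∀ k, 0 ≤ c k) : Fm l M D where
  g := fun k ω => c k • G.g k ω
  ms := fun k ω ω' a a' hV hZ => by rw [G.ms k ω ω' a a' hV hZ]
  sy := fun k ω => (G.sy k ω).smul _
  nn := fun k ω x => by
    rw [dv_smul]
    exact mul_nonneg (hc k) (G.nn k ω x)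

/-- ONE STEP: size `σ` gives derivatives of size `σ - 2 θ` -/
theorem PV.stepT [Finite κ] (hT : TB C X A θ) (hl : l.DMf A) (hC : C.ev l) (G : Fm l M D) {σ : ℝ} (h : PV X G.g σ)
    (i : Fin M) : PV X (G.d i).g (σ - 2 * θ) := by
  have hm : ∀ k ω ω', (l k).T.μ ω ≠ 0 → (l k).T.μ ω' ≠ 0 → (l k).V ω ω' → (l k).T.Z ω ω' →
      (1 + (2 : ℝ) ^ (σ * (S.F k).n) • G.g k ω : Matrix (Mon M D) (Mon M D) ℝ) =
        1 + (2 : ℝ) ^ (σ * (S.F k).n) • G.g k ω' := fun k ω ω' a b c d => by rw [G.ms k ω ω' a b c d]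
  have hsc0 : ∀ k ω (x : Mon M D → ℝ), 0 ≤ x ⬝ᵥ (((2 : ℝ) ^ (σ * (S.F k).n) • G.g k ω) *ᵥ x) := fun k ω x => by
    rw [dv_smul]
    exact mul_nonneg (by positivity) (G.nn k ω x)
  have h1 : ∀ k ω, (1 + (2 : ℝ) ^ (σ * (S.F k).n) • G.g k ω : Matrix (Mon M D) (Mon M D) ℝ).IsSymm ∧
      ∀ x, x ⬝ᵥ x ≤ qf (1 + (2 : ℝ) ^ (σ * (S.F k).n) • G.g k ω : Matrix (Mon M D) (Mon M D) ℝ) x := fun k ω => by
    refine ⟨Matrix.isSymm_one.add ((G.sy k ω).smul _), fun x => ?_⟩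
    rw [qf_add, qf_one']
    have := hsc0 k ω x
    show x ⬝ᵥ x ≤ x ⬝ᵥ x + x ⬝ᵥ (((2 : ℝ) ^ (σ * (S.F k).n) • G.g k ω) *ᵥ x)
    linarith
  obtain ⟨K, hK, hone⟩ := (gaq X D).one
  have hTy : ∀ η : ℝ, 0 < η → Tendsto (fun k => (l k).T.pb (fun ω => ¬ (gaq X D).φ k ((l k).p.π ω)
      (1 + (2 : ℝ) ^ (σ * (S.F k).n) • G.g k ω) ≤ 2 ^ (η * (S.F k).n))) UF (𝓝 0) := by
    intro η hη
    have hη4 : 0 < η / 4 := by linarith
    refine squeeze_zero' (Eventually.of_forall fun k => FSp.pb_nonneg _ _) ?_ (h (η / 4) hη4)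
    filter_upwards [hone, hK.eventually_le hη4, S.lim.eventually (eventually_ge_atTop (4 / η : ℝ))] with k a b c
    apply FSp.pb_mono
    intro ω hω h2 h3
    apply h2
    rw [(gaq X D).add]
    have h4 := a _ ((l k).p.supp ω hω)
    have h5 : (gaq X D).φ k ((l k).p.π ω) ((2 : ℝ) ^ (σ * (S.F k).n) • G.g k ω) =
        (2 : ℝ) ^ (σ * (S.F k).n) * phi (S.dl 1 k) (G.g k ω) (X.v k ((l k).p.π ω)) := phi_smul _ _ _ _
    rw [h5]
    have h6 : (2 : ℝ) ^ (σ * (S.F k).n) * phi (S.dl 1 k) (G.g k ω) (X.v k ((l k).p.π ω)) ≤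
        2 ^ (η / 4 * (S.F k).n) := by
      refine (mul_le_mul_of_nonneg_left h3 (by positivity)).trans (le_of_eq ?_)
      rw [← Real.rpow_add (by norm_num)]
      congr 1
      ring
    have hn := (S.F k).pos
    have h7 : (2 : ℝ) ^ (η / 4 * (S.F k).n) * 2 ≤ 2 ^ (η * (S.F k).n) := by
      rw [← Real.rpow_add_one (by norm_num)]
      apply Real.rpow_le_rpow_of_exponent_le (by norm_num)
      rw [div_le_iff₀ hη] at c
      nlinarith
    linarith
  have hy := cut_adf_eta (Φ := gaq X D) l hl _ hm (Eventually.of_forall fun k ω _ => h1 k ω) hTy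
  have hyK : (gaq X D).AdfK C A (cutFD (gaq X D) l _ hm) := ⟨hy, hC⟩
  have hcp := cut_typ_eta (Φ := gaq X D) l _ (Eventually.of_forall fun k ω _ => h1 k ω) hTy
  intro η hη
  have h2 := (hT D _ hyK i (η / 2) (by linarith)).add hcp
  rw [add_zero] at h2
  refine squeeze_zero' (Eventually.of_forall fun k => FSp.pb_nonneg _ _) (Eventually.of_forall fun k => ?_) h2
  refine le_trans (FSp.pb_mono (l k).T (E' := fun ω => (¬ (Pi.single i (1 : ℝ) : Fin M → ℝ) ⬝ᵥ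
      (Jq (S.dl 1 k) (cutm ((gaq X D).cp k) (1 + (2 : ℝ) ^ (σ * (S.F k).n) • G.g k ω))
        (X.v k ((l k).p.π ω)) *ᵥ (Pi.single i (1 : ℝ))) ≤ 2 ^ (2 * (θ + η / 2) * (S.F k).n)) ∨
      ¬ Cpd ((gaq X D).cp k) (1 + (2 : ℝ) ^ (σ * (S.F k).n) • G.g k ω)) ?_) (pb_or _ _ _)
  intro ω hω h3
  by_contra h4
  rw [not_or, not_not, not_not] at h4
  obtain ⟨h5, h6⟩ := h4
  rw [cutm_pos h6] at h5
  apply h3
  have hn := (S.F k).pos
  have hJ := Jq_mono (S.dl 1 k) (A := (2 : ℝ) ^ (σ * (S.F k).n) • G.g k ω)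
    (B := 1 + (2 : ℝ) ^ (σ * (S.F k).n) • G.g k ω) (fun x => by
      rw [dv_add, Matrix.one_mulVec]
      have := self_nonneg' x
      linarith) (X.v k ((l k).p.π ω)) (Pi.single i 1)
  rw [← phi_dM_Jq, dM_smul, phi_smul] at hJ
  have h7 : (2 : ℝ) ^ (σ * (S.F k).n) * phi (S.dl 1 k) (dM i (G.g k ω)) (X.v k ((l k).p.π ω)) ≤
      2 ^ (2 * (θ + η / 2) * (S.F k).n) := hJ.trans h5
  show phi (S.dl 1 k) (dM i (G.g k ω)) (X.v k ((l k).p.π ω)) ≤ _
  have e2 : (η - (σ - 2 * θ)) * (S.F k).n = 2 * (θ + η / 2) * (S.F k).n - σ * (S.F k).n := by ring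
  rw [e2, Real.rpow_sub (by norm_num), le_div_iff₀ (by positivity), mul_comm]
  exact h7

/-- all derivatives: order `a` gives `σ - 2 θ a` -/
theorem PV.stepsT [Finite κ] (hT : TB C X A θ) (hl : l.DMf A) (hC : C.ev l) (L : List (Fin M)) :
    ∀ (G : Fm l M D) (σ : ℝ), PV X G.g σ → PV X (fun k ω => dL L (G.g k ω)) (σ - 2 * θ * L.length) := by
  induction L with
  | nil =>
    intro G σ h
    have e1 : σ - 2 * θ * (([] : List (Fin M)).length : ℝ) = σ := by simp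
    rw [e1]
    exact h
  | cons i L ih =>
    intro G σ h
    have h1 := ih (G.d i) (σ - 2 * θ) (PV.stepT hT hl hC G h i)
    have e1 : σ - 2 * θ * ((i :: L).length : ℝ) = σ - 2 * θ - 2 * θ * (L.length : ℝ) := by
      rw [List.length_cons]
      push_cast
      ring
    rw [e1]
    exact h1

/-- THE TRACE from the size on the cell -/
theorem trace_th [Finite κ] (hT : TB C X A θ) (hθ : 0 ≤ θ) (hl : l.DMf A) (hC : C.ev l) (G : Fm l M D) {σ : ℝ}
    (hP : PV X G.g σ) (δ : ℝ) (hδ : 0 < δ) :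
    Tendsto (fun k => (l k).T.pb (fun ω => ¬ (G.g k ω).trace ≤ 2 ^ ((2 * θ * D - σ + δ) * (S.F k).n))) UF (𝓝 0) := by
  classical
  obtain ⟨Kx, hKx, hX⟩ := X.bd
  obtain ⟨B, hB1, hB⟩ := exists_trace_bd M D
  have hfin : {L : List (Fin M) | L.length ≤ D}.Finite := List.finite_length_le (Fin M) D
  have hδ2 : 0 < δ / 2 := by linarith
  have hall := typ_finset (fun k => (l k).T) hfin.toFinset (fun L k ω =>
    phi (S.dl 1 k) (dL L (G.g k ω)) (X.v k ((l k).p.π ω)) ≤ 2 ^ ((δ / 2 - (σ - 2 * θ * L.length)) * (S.F k).n))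
    (fun L _ => PV.stepsT hT hl hC L G σ hP (δ / 2) hδ2)
  have hS2 : S.Sub (fun k => B * ((1 + M * (Kx k + 1)) ^ D) ^ 2) :=
    (S.Sub_const (by linarith)).mul (Sub_pow' (Sub_pow' ((S.Sub_const zero_le_one).add
      ((S.Sub_const (Nat.cast_nonneg _)).mul (hKx.add (S.Sub_const zero_le_one)))) D) 2)
  refine squeeze_zero' (Eventually.of_forall fun k => FSp.pb_nonneg _ _) ?_ hall
  filter_upwards [hX, hKx.1, hS2.eventually_le hδ2] with k a b c
  apply FSp.pb_mono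
  intro ω hω h2 h3
  apply h2
  have hω' := (l k).p.supp ω hω
  have hn := (S.F k).pos
  have h6 := hB (G.g k ω) (G.sy k ω) (G.nn k ω) (X.v k ((l k).p.π ω)) (Kx k)
    (2 ^ ((δ / 2 - (σ - 2 * θ * D)) * (S.F k).n)) b
    (a _ hω') (by positivity) (fun L hL => (vv_le_phi (dL_nonneg L (G.nn k ω)) _).trans
      ((h3 L (hfin.mem_toFinset.2 hL)).trans (by
        apply Real.rpow_le_rpow_of_exponent_le (by norm_num)
        apply mul_le_mul_of_nonneg_right _ hn.le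
        have : (L.length : ℝ) ≤ D := by exact_mod_cast hL
        nlinarith)))
  refine h6.trans ?_
  have h7 : B * ((1 + M * (Kx k + 1)) ^ D) ^ 2 * 2 ^ ((δ / 2 - (σ - 2 * θ * D)) * (S.F k).n) ≤
      2 ^ (δ / 2 * (S.F k).n) * 2 ^ ((δ / 2 - (σ - 2 * θ * D)) * (S.F k).n) :=
    mul_le_mul_of_nonneg_right (by linarith) (by positivity)
  refine h7.trans (le_of_eq ?_)
  rw [← Real.rpow_add (by norm_num)]
  congr 1
  ring

/-- the form multiplied by a factor on an event which is a function of the index -/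
def Fm.msk (G : Fm l M D) (b : ∀ k, (l k).T.Ω → Bool) (c : ℕ → ℝ) (hc : ∀ k, 0 ≤ c k) : Fm (ixl l b) M D where
  g := fun k ω => if b k ω = true then c k • G.g k ω else 0
  ms := fun k (ω : (l k).T.Ω) (ω' : (l k).T.Ω) a a' hV hZ => by
    have h1 : b k ω = b k ω' := hV.2
    have h2 : G.g k ω = G.g k ω' := G.ms k ω ω' a a' hV.1 hZ
    rw [h1, h2]
  sy := fun k (ω : (l k).T.Ω) => by
    split_ifs
    · exact (G.sy k ω).smul _
    · exact Matrix.isSymm_zero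
  nn := fun k (ω : (l k).T.Ω) x => by
    split_ifs
    · rw [dv_smul]
      exact mul_nonneg (hc k) (G.nn k ω x)
    · rw [Matrix.zero_mulVec, dotProduct_zero]

/-- the class of labels is closed under bits which are functions of the label and of the point -/
def Bcl (C : LC S) (X : S.VV M) (l : Lab S) : Prop :=
  ∀ b : ∀ k, (l k).T.Ω → Bool, (∀ k ω ω', (l k).T.μ ω ≠ 0 → (l k).T.μ ω' ≠ 0 → (l k).V ω ω' → (l k).T.Z ω ω' →
      X.v k ((l k).p.π ω) = X.v k ((l k).p.π ω') → b k ω = b k ω') → C.ev (ixl l b)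

theorem Bcl_all : Bcl (LC.all S) X l := fun _ _ => Eventually.of_forall fun _ => trivial

theorem Bcl_kz {R : ∀ k, Setoid (S.F k).Ω} (hR : ∀ k ω ω', R k ω ω' → X.v k ω = X.v k ω')
    (hC : (LC.kz fun k => fc (R k)).ev l) : Bcl (LC.kz fun k => fc (R k)) X l := fun b hb => by
  filter_upwards [hC] with k hk
  exact Pool.Agent.Helper89.RAK.addW_kz (l k) _ (R k) hk fun ω ω' a a' hV hZ hr =>
    hb k ω ω' a a' hV hZ (hR k _ _ hr)

/-- ONE WINDOW of sizes: if the value at the point is tame then the size on the cell is typically not in a window of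
sizes away from one -/
theorem win_val [Finite κ] (hT : TB C X A θ) (hθ1 : θ < 1) (hl : l.DMf A) (hC : Bcl C X l) (G : Fm l M D)
    (hv : ∀ η : ℝ, 0 < η → Tendsto (fun k => (l k).T.pb (fun ω =>
      ¬ vv (X.v k ((l k).p.π ω)) ⬝ᵥ (G.g k ω *ᵥ vv (X.v k ((l k).p.π ω))) ≤ 2 ^ (η * (S.F k).n))) UF (𝓝 0))
    {u h : ℝ} (hu : 0 < u) (hh1 : h ≤ 1 - θ) :
    Tendsto (fun k => (l k).T.pb (fun ω => 2 ^ (u * (S.F k).n) < phi (S.dl 1 k) (G.g k ω) (X.v k ((l k).p.π ω)) ∧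
      phi (S.dl 1 k) (G.g k ω) (X.v k ((l k).p.π ω)) ≤ 2 ^ ((u + h) * (S.F k).n))) UF (𝓝 0) := by
  classical
  obtain ⟨b, hb⟩ : ∃ b : ∀ k, (l k).T.Ω → Bool, ∀ k ω, b k ω = true ↔
      (2 ^ (u * (S.F k).n) < phi (S.dl 1 k) (G.g k ω) (X.v k ((l k).p.π ω)) ∧
        phi (S.dl 1 k) (G.g k ω) (X.v k ((l k).p.π ω)) ≤ 2 ^ ((u + h) * (S.F k).n)) :=
    ⟨fun k ω => decide (2 ^ (u * (S.F k).n) < phi (S.dl 1 k) (G.g k ω) (X.v k ((l k).p.π ω)) ∧
        phi (S.dl 1 k) (G.g k ω) (X.v k ((l k).p.π ω)) ≤ 2 ^ ((u + h) * (S.F k).n)), fun k ω => decide_eq_true_iff⟩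
  have hCb := hC b (fun k ω ω' a a' hV hZ hX => by
    rw [Bool.eq_iff_iff, hb, hb, G.ms k ω ω' a a' hV hZ, hX])
  obtain ⟨G1, hG1⟩ : ∃ G1 : Fm (ixl l b) M D, ∀ k (ω : (l k).T.Ω), G1.g k ω =
      if b k ω = true then ((2 : ℝ) ^ (-(u + h) * (S.F k).n)) • G.g k ω else 0 :=
    ⟨G.msk b (fun k => 2 ^ (-(u + h) * (S.F k).n)) fun k => by positivity, fun _ _ => rfl⟩
  have hP : PV X G1.g 0 := by
    intro η hη
    refine squeeze_zero' (Eventually.of_forall fun k => FSp.pb_nonneg _ _) (Eventually.of_forall fun k => ?_)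
      tendsto_const_nhds
    have h2 : (ixl l b k).T.pb (fun _ => False) = 0 := by
      unfold FSp.pb mass
      apply Finset.sum_eq_zero
      intro ω _
      exact res_neg _ _ _ not_false
    refine le_trans (FSp.pb_mono _ (E' := fun _ => False) ?_) h2.le
    intro (ω : (l k).T.Ω) hω h3
    apply h3
    show phi (S.dl 1 k) (G1.g k ω) (X.v k ((l k).p.π ω)) ≤ 2 ^ ((η - 0) * (S.F k).n)
    have hn := (S.F k).pos
    have h5 : (1 : ℝ) ≤ 2 ^ ((η - 0) * (S.F k).n) := Real.one_le_rpow (by norm_num) (by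
      rw [sub_zero]
      positivity)
    rw [hG1]
    split_ifs with h4
    · rw [phi_smul]
      refine le_trans ?_ h5
      have h6 := ((hb k ω).1 h4).2
      calc (2 : ℝ) ^ (-(u + h) * (S.F k).n) * phi (S.dl 1 k) (G.g k ω) (X.v k ((l k).p.π ω)) ≤
          2 ^ (-(u + h) * (S.F k).n) * 2 ^ ((u + h) * (S.F k).n) := mul_le_mul_of_nonneg_left h6 (by positivity)
        _ = 1 := by
          rw [← Real.rpow_add (by norm_num), neg_mul, neg_add_cancel, Real.rpow_zero]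
    · have h6 : phi (S.dl 1 k) (0 : Matrix (Mon M D) (Mon M D) ℝ) (X.v k ((l k).p.π ω)) = 0 := by
        unfold phi
        apply Finset.sum_eq_zero
        intro j _
        rw [Matrix.zero_mulVec, dotProduct_zero]
      rw [h6]
      positivity
  obtain ⟨η, hη0, hη1, hη2⟩ : ∃ η : ℝ, 0 < η ∧ η ≤ u / 2 ∧ η ≤ (1 - θ) / 2 :=
    ⟨min (u / 2) ((1 - θ) / 2), lt_min (by linarith) (by linarith), min_le_left _ _, min_le_right _ _⟩
  have hstep := typ_finset (fun k => (ixl l b k).T) Finset.univ (fun (i : Fin M) k (ω : (ixl l b k).T.Ω) =>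
    phi (S.dl 1 k) ((G1.d i).g k ω) (X.v k ((ixl l b k).p.π ω)) ≤ 2 ^ ((η - (0 - 2 * θ)) * (S.F k).n))
    (fun i _ => PV.stepT hT (ixl_DMf hl b) hCb G1 hP i η hη0)
  have hsum := (hv η hη0).add hstep
  rw [add_zero] at hsum
  have hnn := nn_one M D
  obtain ⟨c0, hc0, hc0e⟩ : ∃ c0 : ℝ, 0 ≤ c0 ∧ c0 = nn M D * (2 + 2 * ((M * Cm M D) ^ 2 * M)) :=
    ⟨_, by positivity, rfl⟩
  have hconst := S.lim.eventually (eventually_ge_atTop (Real.logb 2 (c0 + 1) / η))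
  refine squeeze_zero' (Eventually.of_forall fun k => FSp.pb_nonneg _ _) ?_ hsum
  filter_upwards [hconst] with k hck
  refine le_trans (FSp.pb_mono (l k).T (E' := fun ω => (¬ vv (X.v k ((l k).p.π ω)) ⬝ᵥ (G.g k ω *ᵥ
    vv (X.v k ((l k).p.π ω))) ≤ 2 ^ (η * (S.F k).n)) ∨ ¬ ∀ i ∈ (Finset.univ : Finset (Fin M)),
      phi (S.dl 1 k) ((G1.d i).g k ω) (X.v k ((l k).p.π ω)) ≤ 2 ^ ((η - (0 - 2 * θ)) * (S.F k).n)) ?_) (pb_or _ _ _)
  intro ω hω h3
  by_contra h4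
  rw [not_or, not_not, not_not] at h4
  obtain ⟨h5, h6⟩ := h4
  have hn := (S.F k).pos
  have hbt : b k ω = true := (hb k ω).2 h3
  have hr0 := S.dl_pos 1 k
  have h7 := phi_le_val (G.sy k ω) (G.nn k ω) (X.v k ((l k).p.π ω)) hr0
  have h8 : ∀ i, phi (S.dl 1 k) (dM i (G.g k ω)) (X.v k ((l k).p.π ω)) ≤
      2 ^ ((u + h) * (S.F k).n) * 2 ^ ((η + 2 * θ) * (S.F k).n) := by
    intro i
    have h9 : phi (S.dl 1 k) (dM i (G1.g k ω)) (X.v k ((l k).p.π ω)) ≤ 2 ^ ((η - (0 - 2 * θ)) * (S.F k).n) :=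
      h6 i (Finset.mem_univ i)
    rw [hG1, if_pos hbt, dM_smul, phi_smul] at h9
    have e1 : (η - (0 - 2 * θ)) = η + 2 * θ := by ring
    rw [e1] at h9
    have e2 : (2 : ℝ) ^ ((u + h) * (S.F k).n) * (2 ^ (-(u + h) * (S.F k).n) *
        phi (S.dl 1 k) (dM i (G.g k ω)) (X.v k ((l k).p.π ω))) =
          phi (S.dl 1 k) (dM i (G.g k ω)) (X.v k ((l k).p.π ω)) := by
      rw [← mul_assoc, ← Real.rpow_add (by norm_num), neg_mul, add_neg_cancel, Real.rpow_zero, one_mul]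
    rw [← e2]
    exact mul_le_mul_of_nonneg_left h9 (by positivity)
  have h9 : ∑ i, phi (S.dl 1 k) (dM i (G.g k ω)) (X.v k ((l k).p.π ω)) ≤
      M * (2 ^ ((u + h) * (S.F k).n) * 2 ^ ((η + 2 * θ) * (S.F k).n)) := by
    refine (Finset.sum_le_card_nsmul _ _ _ fun i _ => h8 i).trans (le_of_eq ?_)
    rw [nsmul_eq_mul, Finset.card_univ, Fintype.card_fin]
  have e3 : S.dl 1 k ^ 2 = 2 ^ (-2 * (S.F k).n) := by
    unfold Sp.dl
    rw [← Real.rpow_natCast, ← Real.rpow_mul (by norm_num)]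
    congr 1
    push_cast
    ring
  rw [e3] at h7
  have h10 : phi (S.dl 1 k) (G.g k ω) (X.v k ((l k).p.π ω)) ≤ c0 * 2 ^ ((u - η) * (S.F k).n) := by
    refine h7.trans ?_
    have a1 : (2 : ℝ) ^ (η * (S.F k).n) ≤ 2 ^ ((u - η) * (S.F k).n) := by
      apply Real.rpow_le_rpow_of_exponent_le (by norm_num)
      exact mul_le_mul_of_nonneg_right (by linarith) hn.le
    have a2 : (2 : ℝ) ^ (-2 * (S.F k).n) * (2 ^ ((u + h) * (S.F k).n) * 2 ^ ((η + 2 * θ) * (S.F k).n)) ≤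
        2 ^ ((u - η) * (S.F k).n) := by
      rw [← Real.rpow_add (by norm_num), ← Real.rpow_add (by norm_num)]
      apply Real.rpow_le_rpow_of_exponent_le (by norm_num)
      nlinarith
    have a3 : (2 : ℝ) ^ (-2 * (S.F k).n) * (∑ i, phi (S.dl 1 k) (dM i (G.g k ω)) (X.v k ((l k).p.π ω))) ≤
        M * 2 ^ ((u - η) * (S.F k).n) := by
      calc _ ≤ (2 : ℝ) ^ (-2 * (S.F k).n) * (M * (2 ^ ((u + h) * (S.F k).n) * 2 ^ ((η + 2 * θ) * (S.F k).n))) :=
            mul_le_mul_of_nonneg_left h9 (by positivity)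
        _ = M * (2 ^ (-2 * (S.F k).n) * (2 ^ ((u + h) * (S.F k).n) * 2 ^ ((η + 2 * θ) * (S.F k).n))) := by ring
        _ ≤ _ := mul_le_mul_of_nonneg_left a2 (Nat.cast_nonneg _)
    rw [hc0e, mul_assoc, mul_assoc (nn M D)]
    apply mul_le_mul_of_nonneg_left _ (by linarith)
    have a4 : (M * Cm M D) ^ 2 * ((2 : ℝ) ^ (-2 * (S.F k).n) * ∑ i, phi (S.dl 1 k) (dM i (G.g k ω))
        (X.v k ((l k).p.π ω))) ≤ (M * Cm M D) ^ 2 * (M * 2 ^ ((u - η) * (S.F k).n)) :=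
      mul_le_mul_of_nonneg_left a3 (by positivity)
    have a5 : (2 + 2 * ((M * Cm M D) ^ 2 * M)) * (2 : ℝ) ^ ((u - η) * (S.F k).n) =
        2 * 2 ^ ((u - η) * (S.F k).n) + 2 * ((M * Cm M D) ^ 2 * (M * 2 ^ ((u - η) * (S.F k).n))) := by ring
    rw [a5]
    linarith
  have h11 : c0 < 2 ^ (η * (S.F k).n) := by
    rw [div_le_iff₀ hη0] at hck
    have h12 : (2 : ℝ) ^ (Real.logb 2 (c0 + 1)) ≤ 2 ^ (η * (S.F k).n) :=
      Real.rpow_le_rpow_of_exponent_le (by norm_num) (by rw [mul_comm]; exact hck)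
    rw [Real.rpow_logb (by norm_num) (by norm_num) (by linarith)] at h12
    linarith
  have h12 : c0 * 2 ^ ((u - η) * (S.F k).n) < 2 ^ (u * (S.F k).n) := by
    calc c0 * 2 ^ ((u - η) * (S.F k).n) < 2 ^ (η * (S.F k).n) * 2 ^ ((u - η) * (S.F k).n) :=
          mul_lt_mul_of_pos_right h11 (by positivity)
      _ = 2 ^ (u * (S.F k).n) := by
          rw [← Real.rpow_add (by norm_num)]
          congr 1
          ring
  linarith [h3.1]

/-- THE SIZE ON THE CELL FROM THE VALUE AT THE POINT -/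
theorem PV.of_val [Finite κ] (hT : TB C X A θ) (hθ1 : θ < 1) (hl : l.DMf A) (hC : Bcl C X l) (G : Fm l M D) {c : ℝ}
    (hc : PV X G.g (-c)) {σ : ℝ} (hv : ∀ η : ℝ, 0 < η → Tendsto (fun k => (l k).T.pb (fun ω =>
      ¬ vv (X.v k ((l k).p.π ω)) ⬝ᵥ (G.g k ω *ᵥ vv (X.v k ((l k).p.π ω))) ≤ 2 ^ ((η - σ) * (S.F k).n))) UF (𝓝 0)) :
    PV X G.g σ := by
  obtain ⟨G1, hG1⟩ : ∃ G1 : Fm l M D, ∀ k ω, G1.g k ω = (2 : ℝ) ^ (σ * (S.F k).n) • G.g k ω :=
    ⟨G.sc (fun k => 2 ^ (σ * (S.F k).n)) fun k => by positivity, fun _ _ => rfl⟩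
  intro η hη
  obtain ⟨h, hh0, hh1, hh2⟩ : ∃ h : ℝ, 0 < h ∧ h ≤ η ∧ h ≤ 1 - θ :=
    ⟨min η (1 - θ), lt_min hη (by linarith), min_le_left _ _, min_le_right _ _⟩
  obtain ⟨J, hJ⟩ := exists_nat_ge ((c + σ + 1) / h)
  have hfin := typ_finset (fun k => (l k).T) (Finset.range J) (fun (j : ℕ) k ω =>
    ¬ (2 ^ ((η + j * h) * (S.F k).n) < phi (S.dl 1 k) (G1.g k ω) (X.v k ((l k).p.π ω)) ∧
      phi (S.dl 1 k) (G1.g k ω) (X.v k ((l k).p.π ω)) ≤ 2 ^ ((η + j * h + h) * (S.F k).n)))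
    (fun j _ => by
      have h1 := win_val hT hθ1 hl hC G1 (fun η' hη' => by
        refine squeeze_zero' (Eventually.of_forall fun k => FSp.pb_nonneg _ _) (Eventually.of_forall fun k => ?_)
          (hv η' hη')
        apply FSp.pb_mono
        intro ω _ h2 h3
        apply h2
        rw [hG1, dv_smul]
        refine (mul_le_mul_of_nonneg_left h3 (by positivity)).trans (le_of_eq ?_)
        rw [← Real.rpow_add (by norm_num)]
        congr 1
        ring) (u := η + j * h) (h := h) (by positivity) hh2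
      refine squeeze_zero' (Eventually.of_forall fun k => FSp.pb_nonneg _ _) (Eventually.of_forall fun k => ?_) h1
      apply FSp.pb_mono
      intro ω _ h2
      exact not_not.1 h2)
  have hsum := (hc 1 one_pos).add hfin
  rw [add_zero] at hsum
  refine squeeze_zero' (Eventually.of_forall fun k => FSp.pb_nonneg _ _) (Eventually.of_forall fun k => ?_) hsum
  refine le_trans (FSp.pb_mono (l k).T (E' := fun ω => (¬ phi (S.dl 1 k) (G.g k ω) (X.v k ((l k).p.π ω)) ≤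
    2 ^ ((1 - -c) * (S.F k).n)) ∨ ¬ ∀ j ∈ Finset.range J,
      ¬ (2 ^ ((η + j * h) * (S.F k).n) < phi (S.dl 1 k) (G1.g k ω) (X.v k ((l k).p.π ω)) ∧
        phi (S.dl 1 k) (G1.g k ω) (X.v k ((l k).p.π ω)) ≤ 2 ^ ((η + j * h + h) * (S.F k).n))) ?_) (pb_or _ _ _)
  intro ω _ h3
  by_contra h4
  rw [not_or, not_not, not_not] at h4
  obtain ⟨h5, h6⟩ := h4
  apply h3
  have hn := (S.F k).pos
  have h7 : phi (S.dl 1 k) (G1.g k ω) (X.v k ((l k).p.π ω)) =
      2 ^ (σ * (S.F k).n) * phi (S.dl 1 k) (G.g k ω) (X.v k ((l k).p.π ω)) := by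
    rw [hG1, phi_smul]
  have h8 : ∀ j ≤ J, phi (S.dl 1 k) (G1.g k ω) (X.v k ((l k).p.π ω)) ≤ 2 ^ ((η + j * h) * (S.F k).n) →
      phi (S.dl 1 k) (G1.g k ω) (X.v k ((l k).p.π ω)) ≤ 2 ^ (η * (S.F k).n) := by
    intro j
    induction j with
    | zero =>
      intro _ h9
      have e1 : η + ((0 : ℕ) : ℝ) * h = η := by simp
      rwa [e1] at h9
    | succ j ih =>
      intro h9 h10
      apply ih (by omega)
      by_contra h11
      rw [not_le] at h11
      apply h6 j (Finset.mem_range.2 (by omega))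
      refine ⟨h11, h10.trans (le_of_eq ?_)⟩
      congr 2
      push_cast
      ring
  have h9 : phi (S.dl 1 k) (G1.g k ω) (X.v k ((l k).p.π ω)) ≤ 2 ^ (η * (S.F k).n) := by
    apply h8 J le_rfl
    rw [h7]
    refine (mul_le_mul_of_nonneg_left h5 (by positivity)).trans ?_
    rw [← Real.rpow_add (by norm_num)]
    apply Real.rpow_le_rpow_of_exponent_le (by norm_num)
    rw [div_le_iff₀ hh0] at hJ
    nlinarith
  rw [h7] at h9
  rw [sub_mul, Real.rpow_sub (by norm_num), le_div_iff₀ (by positivity), mul_comm]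
  exact h9

/-- the size on the cell from the trace -/
theorem PV.of_trace (G : Fm l M D) {c : ℝ}
    (hc : ∀ η : ℝ, 0 < η → Tendsto (fun k => (l k).T.pb (fun ω => ¬ (G.g k ω).trace ≤ 2 ^ ((η + c) * (S.F k).n)))
      UF (𝓝 0)) : PV X G.g (-c) := by
  obtain ⟨Kx, hKx, hX⟩ := X.bd
  intro η hη
  have hη2 : 0 < η / 2 := by linarith
  have hS : S.Sub (fun k => nn M D * Fintype.card (Mon M D) * (Kx k + 1) ^ (2 * D)) := by
    have hnn := nn_one M D
    exact (S.Sub_const (by positivity)).mul (Sub_pow' (hKx.add (S.Sub_const zero_le_one)) _)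
  refine squeeze_zero' (Eventually.of_forall fun k => FSp.pb_nonneg _ _) ?_ (hc (η / 2) hη2)
  filter_upwards [hX, hKx.1, hS.eventually_le hη2] with k a b d
  apply FSp.pb_mono
  intro ω hω h2 h3
  apply h2
  have hω' := (l k).p.supp ω hω
  have hr1 : S.dl 1 k ≤ 1 := (S.dl_anti zero_le_one k).trans_eq (S.dl_zero k)
  have hn := (S.F k).pos
  have h4 := phi_le (G.g k ω) (G.g k ω).trace (fun x => qf_le_trace (G.sy k ω) (G.nn k ω) x)
    (trace_nonneg' (G.sy k ω) (G.nn k ω)) (S.dl 1 k) (Kx k + 1) (S.dl_pos 1 k).le (by linarith)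
    (X.v k ((l k).p.π ω)) (fun i => by
      have := a _ hω' i
      linarith)
  refine h4.trans ?_
  calc nn M D * Fintype.card (Mon M D) * (Kx k + 1) ^ (2 * D) * (G.g k ω).trace ≤
      2 ^ (η / 2 * (S.F k).n) * 2 ^ ((η / 2 + c) * (S.F k).n) :=
        mul_le_mul (by linarith) h3 (trace_nonneg' (G.sy k ω) (G.nn k ω)) (by positivity)
    _ = 2 ^ ((η - -c) * (S.F k).n) := by
        rw [← Real.rpow_add (by norm_num)]
        congr 1
        ring

/-- NO ALGEBRAIC RELATIONS BEYOND THE TOP EXPONENT: a form of exponential size which is known to a label of the class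
and whose value at the point is at most `2 ^ (-σ n)` has derivatives of order `a` of size `2 ^ ((2 θ a - σ) n)` -/
theorem der_of_val [Finite κ] (hT : TB C X A θ) (hθ1 : θ < 1) (hl : l.DMf A) (hC : Bcl C X l) (hC0 : C.ev l)
    (G : Fm l M D) {c : ℝ}
    (hc : ∀ η : ℝ, 0 < η → Tendsto (fun k => (l k).T.pb (fun ω => ¬ (G.g k ω).trace ≤ 2 ^ ((η + c) * (S.F k).n)))
      UF (𝓝 0)) {σ : ℝ} (hv : ∀ η : ℝ, 0 < η → Tendsto (fun k => (l k).T.pb (fun ω =>
      ¬ vv (X.v k ((l k).p.π ω)) ⬝ᵥ (G.g k ω *ᵥ vv (X.v k ((l k).p.π ω))) ≤ 2 ^ ((η - σ) * (S.F k).n))) UF (𝓝 0))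
    (L : List (Fin M)) : PV X (fun k ω => dL L (G.g k ω)) (σ - 2 * θ * L.length) :=
  PV.stepsT hT hl hC0 L G σ (PV.of_val hT hθ1 hl hC G (PV.of_trace G hc) hv)

/-- the coefficients -/
theorem trace_of_val [Finite κ] (hT : TB C X A θ) (hθ0 : 0 ≤ θ) (hθ1 : θ < 1) (hl : l.DMf A) (hC : Bcl C X l)
    (hC0 : C.ev l) (G : Fm l M D) {c : ℝ}
    (hc : ∀ η : ℝ, 0 < η → Tendsto (fun k => (l k).T.pb (fun ω => ¬ (G.g k ω).trace ≤ 2 ^ ((η + c) * (S.F k).n)))
      UF (𝓝 0)) {σ : ℝ} (hv : ∀ η : ℝ, 0 < η → Tendsto (fun k => (l k).T.pb (fun ω =>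
      ¬ vv (X.v k ((l k).p.π ω)) ⬝ᵥ (G.g k ω *ᵥ vv (X.v k ((l k).p.π ω))) ≤ 2 ^ ((η - σ) * (S.F k).n))) UF (𝓝 0))
    (δ : ℝ) (hδ : 0 < δ) :
    Tendsto (fun k => (l k).T.pb (fun ω => ¬ (G.g k ω).trace ≤ 2 ^ ((2 * θ * D - σ + δ) * (S.F k).n))) UF (𝓝 0) :=
  trace_th hT hθ0 hl hC0 G (PV.of_val hT hθ1 hl hC G (PV.of_trace G hc) hv) δ hδ

end

end Pool.Agent.Helper26.BXD
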