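import Pool.Agent.Helper26.BXD.Vld
import Pool.Agent.Helper7.RD.Kv

/-! BOX DOMINATION: how to use it. No gain from volumes; the point of the zoom; exact labels; transitivity of the
domination in the joins. -/

set_option autoImplicit false

namespace Pool.Agent.Helper26.BXD

open Finset Filter Topology Matrix MvPolynomial Pool.Agent.Helper69.RK Pool.Agent.Helper31.EC
open Pool.Agent.Helper31.EC.Sp
open Pool.Agent.Helper40.EL Pool.Agent.Helper89.LX Pool.Agent.Helper3.LF Pool.Agent.Helper84.MT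
open Pool.Agent.Helper95.LF Pool.Agent.Helper36.AM Pool.Agent.Helper7.GZ
open Pool.Agent.Helper7.RD (volC volCO volC_le_of volCO_le ovlz)
open Pool.Agent.Helper14.MC (gx vx vx_UB vol_eq)
open Pool.Agent.Helper3.KL (Cls)
open Pool.Agent.Helper89.RAK (DomJ)

noncomputable section

variable {S : Sp} {M D : ℕ}

/-- no gain from the volumes -/
theorem NG.of_volCO {κ : Type} [Finite κ] {C : LC S} {A : κ → Part S} {X : S.VV M} (h : (M : ℝ) ≤ volCO C A X) :
    NG C X A := by
  intro D y hy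
  have h1 := volC_le_of hy
  have h2 := volCO_le (C := C) (A := A) (Q := X) D
  rw [vol_eq] at h1
  linarith

/-- and conversely -/
theorem NG.volCO {κ : Type} [Finite κ] {C : LC S} {A : κ → Part S} {X : S.VV M} (h : NG C X A) :
    (M : ℝ) ≤ volCO C A X := by
  refine le_ciInf fun D => ?_
  obtain ⟨x, hx⟩ := (gaq X D).exists_optfK C A
  rw [Pool.Agent.Helper7.RD.volC_eq hx, vol_eq]
  have := h D x hx.1
  linarith

section gz

variable {E E' : ℕ → ℕ} {ι : Type} {s : MSys S M E ι} {l : Lab S} {La : Fin M → ℝ} {f : Frm s.Q l La} {c e : ℝ}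
  {he : 0 < e}

/-- the point of the zoom and the point of the box -/
theorem gz_cls {t : MSys (l.ovr e he) M E' ι} (h : Gz s l c e he f.X t) : Cls t.Q (f.X.chg l.V e he) := by
  obtain ⟨K, hK, h1⟩ := h.pt
  refine ⟨K, ?_, ?_⟩
  · have h2 : l.sp.Sub K := (sp_Sub l).mpr hK
    exact chg_sub l.V e he h2
  · filter_upwards [h1] with k hk ω hω j
    have h2 : (l.ovr e he).dl 1 k = S.dl e k := by
      unfold Sp.dl
      rw [l.n_over e he k]
      congr 1
      ring
    have h3 := hk ω hω j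
    rw [h2, abs_sub_comm]
    exact h3

theorem gz_ng {κ : Type} [Finite κ] {C' : LC (l.ovr e he)} {B : κ → Part (l.ovr e he)}
    {t : MSys (l.ovr e he) M E' ι} (h : Gz s l c e he f.X t) (hN : NG C' t.Q B) :
    NG C' (f.X.chg l.V e he) B := hN.near (gz_cls h)

end gz

/-- exact labels over a label -/
theorem kz_ovl {l : Lab S} {e : ℝ} {he : 0 < e} {R : Part S} {y : Lab S} (hy : (LC.kz R).ev y) :
    (LC.kz (l.up e he R)).ev (l.ovl e he y) := by
  filter_upwards [hy] with k hk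
  exact ovlz (l k) e he (y k) (R k) hk

/-! ### transitivity of the domination -/

/-- refinements of the first member of an amalgam -/
def amq {F : FSp} {L l : FLab F} (q : FPj L.T l.T) (hπ : ∀ ω, L.T.μ ω ≠ 0 → l.p.π (q.π ω) = L.p.π ω) (l' : FLab F) :
    FPj (L.am l').sp (l.am l').sp where
  π := fun w => (q.π w.1, w.2)
  law := by
    classical
    funext w
    obtain ⟨a, c⟩ := w
    have hm : ∀ b, ms L.T.μ L.p.π b = ms l.T.μ l.p.π b := by
      intro b
      have h1 : ms L.T.μ L.p.π b = push L.p.π L.T.μ b := (push_ind _ _ _).symm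
      have h2 : ms l.T.μ l.p.π b = push l.p.π l.T.μ b := (push_ind _ _ _).symm
      rw [h1, h2, L.p.law, l.p.law]
    have hq : ∑ b : L.T.Ω, e1_ind (q.π b = a) * L.T.μ b = l.T.μ a := by
      rw [← push_ind]
      exact congrFun q.law a
    have e0 : push (fun w : L.T.Ω × l'.T.Ω => (q.π w.1, w.2)) (amw L.T.μ l'.T.μ L.p.π l'.p.π) (a, c) =
        amw l.T.μ l'.T.μ l.p.π l'.p.π (a, c) := by
      rw [push_ind, Fintype.sum_prod_type]
      have e2 : ∀ b : L.T.Ω, (∑ c' : l'.T.Ω, e1_ind ((q.π b, c') = (a, c)) * amw L.T.μ l'.T.μ L.p.π l'.p.π (b, c')) =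
          (e1_ind (q.π b = a) * L.T.μ b) *
            (e1_ind (l.p.π a = l'.p.π c) * (l'.T.μ c / ms l.T.μ l.p.π (l.p.π a))) := by
        intro b
        rw [Finset.sum_eq_single c]
        · by_cases h : q.π b = a
          · rw [e1_ind_pos (by rw [h] : (q.π b, c) = (a, c)), e1_ind_pos h]
            unfold amw
            by_cases h0 : L.T.μ b = 0
            · rw [h0]
              simp
            · have h3 := hπ b h0
              rw [h] at h3
              show 1 * (e1_ind (L.p.π b = l'.p.π c) * (L.T.μ b * l'.T.μ c / ms L.T.μ L.p.π (L.p.π b))) = _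
              rw [← h3, hm]
              ring
          · rw [e1_ind_neg (fun h' : (q.π b, c) = (a, c) => h (Prod.ext_iff.1 h').1), e1_ind_neg h]
            ring
        · intro c' _ hc
          rw [e1_ind_neg (fun h' : (q.π b, c') = (a, c) => hc (Prod.ext_iff.1 h').2), zero_mul]
        · intro h
          exact absurd (Finset.mem_univ c) h
      rw [Finset.sum_congr rfl fun b _ => e2 b, ← Finset.sum_mul, hq]
      show _ = e1_ind (l.p.π a = l'.p.π c) * (l.T.μ a * l'.T.μ c / ms l.T.μ l.p.π (l.p.π a))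
      ring
    exact e0
  hZ := by
    intro w w' h h'
    exact q.hZ _ _ (((L.am l').supp w h).2.1) (((L.am l').supp w' h').2.1)

/-- DOMINATION IN THE JOINS is transitive -/
theorem DomJ.trans {ι : Type} [Fintype ι] {x y z : ∀ k, FD (S.F k) ι} (h1 : DomJ x y) (h2 : DomJ y z) :
    DomJ x z := by
  intro e he
  have he2 : 0 < e / 2 := by linarith
  have h3 := (h1 (e / 2) he2).add (h2 (e / 2) he2)
  rw [add_zero] at h3
  refine squeeze_zero' (Eventually.of_forall fun k => FSp.pb_nonneg _ _) (Eventually.of_forall fun k => ?_) h3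
  have c1 := pb_push (amq (L := (x k).l.join (y k).l) (l := (x k).l) ((x k).l.am (y k).l).p1 (fun _ _ => rfl) (z k).l)
    (fun w => ¬ ∀ v, qf ((z k).g w.2) v ≤ 2 ^ (e * (S.F k).n) * qf ((x k).g w.1) v)
  have c2 := pb_push (amq (L := (x k).l.join (y k).l) (l := (y k).l) ((x k).l.am (y k).l).p2
    (fun w hw => (((x k).l.am (y k).l).supp w hw).1.symm) (z k).l)
    (fun w => ¬ ∀ v, qf ((z k).g w.2) v ≤ 2 ^ (e / 2 * (S.F k).n) * qf ((y k).g w.1) v)
  have c3 := pb_push (((x k).l.join (y k).l).am (z k).l).p1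
    (fun w : ((x k).l.am (y k).l).sp.Ω => ¬ ∀ v, qf ((y k).g w.2) v ≤ 2 ^ (e / 2 * (S.F k).n) * qf ((x k).g w.1) v)
  have c4 : (((x k).l.join (y k).l).am (z k).l).sp.pb (fun w => ¬ ∀ v, qf ((y k).g
      ((((x k).l.join (y k).l).am (z k).l).p1.π w).2) v ≤ 2 ^ (e / 2 * (S.F k).n) *
        qf ((x k).g ((((x k).l.join (y k).l).am (z k).l).p1.π w).1) v) = ((x k).l.am (y k).l).sp.pb
    (fun w => ¬ ∀ v, qf ((y k).g w.2) v ≤ 2 ^ (e / 2 * (S.F k).n) * qf ((x k).g w.1) v) := c3
  have d1 : ((x k).l.am (z k).l).sp.pb (fun w => ¬ ∀ v, qf ((z k).g w.2) v ≤ 2 ^ (e * (S.F k).n) * qf ((x k).g w.1) v) ≤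
      ((x k).l.am (y k).l).sp.pb (fun w => ¬ ∀ v, qf ((y k).g w.2) v ≤ 2 ^ (e / 2 * (S.F k).n) * qf ((x k).g w.1) v) +
      ((y k).l.am (z k).l).sp.pb (fun w => ¬ ∀ v, qf ((z k).g w.2) v ≤ 2 ^ (e / 2 * (S.F k).n) * qf ((y k).g w.1) v) := by
    rw [← c1, ← c2, ← c4]
    refine le_trans (FSp.pb_mono _ ?_) (pb_or _ _ _)
    intro w hw h4
    by_contra h5
    rw [not_or, not_not, not_not] at h5
    apply h4
    intro v
    have h6 := h5.1 v
    have h7 := h5.2 v
    refine h7.trans ((mul_le_mul_of_nonneg_left h6 (by positivity)).trans (le_of_eq ?_))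
    rw [← mul_assoc, ← Real.rpow_add (by norm_num)]
    congr 2
    ring
  exact d1

/-- THE OPTIMAL FORM of a class of labels which contains a label with a frame dominates all forms of a class without gain
over the box of this label -/
theorem opt_dom_box {Q : S.VV M} {l : Lab S} {La : Fin M → ℝ} (f : Frm Q l La) {κ : ℕ}
    (hκ : ∀ k ω j, (f.P k ω j).totalDegree ≤ κ) (h0 : ∀ i, 0 ≤ La i) (h1 : ∀ i, La i ≤ 1) {e : ℝ} {he : 0 < e}
    {κ₀ κ₁ κ₂ : Type} [Finite κ₀] [Finite κ₂] {A₀ : κ₀ → Part S} {A : κ₁ → Part S} {B : κ₂ → Part (l.ovr e he)}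
    {C₀ : LC S} {C' : LC (l.ovr e he)} (hl : l.DMf A₀) (hl0 : C₀.ev l) {z : ∀ k, FD (S.F k) (Mon M D)}
    (hz : (gaq Q D).OptfK C₀ A₀ z) (hAB : ∀ i', ∃ i, PLe (l.up e he (A i)) (B i'))
    {x : ∀ k, FD (S.F k) (Mon M D)} (hx : (gaq Q D).Adf A x) (hC : C'.ev (l.ovl e he (lb x)))
    (hN : NG C' (f.X.chg l.V e he) B) : DomJ z x :=
  DomJ.trans (Pool.Agent.Helper7.RD.optK_dom hz ⟨bfm_adf f hκ hl h0 h1 D, hl0⟩)
    (box_dom f hκ h0 h1 hAB hx hC hN)

end

end Pool.Agent.Helper26.BXD
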