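import Pool.Agent.Helper26.BXD.Grm
import Pool.Agent.Helper89.RAK.Cmp
import Pool.Agent.Helper7.RD.Pz

/-! BOX DOMINATION. Let `f` be a frame of a label `l` and suppose that the forms of a class of labels have no gain over
`l` at the point of the zoom in the coordinates of the frame. Then every form of the class at the point is dominated by
the form `bfm` of the box, which is known to `l`. -/

set_option autoImplicit false

namespace Pool.Agent.Helper26.BXD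

open Finset Filter Topology Matrix MvPolynomial Pool.Agent.Helper69.RK Pool.Agent.Helper31.EC
open Pool.Agent.Helper31.EC.Sp
open Pool.Agent.Helper40.EL Pool.Agent.Helper89.LX Pool.Agent.Helper3.LF Pool.Agent.Helper84.MT
open Pool.Agent.Helper95.LF Pool.Agent.Helper36.AM Pool.Agent.Helper7.GZ
open Pool.Agent.Helper3.PR (cutm cutm_cpd cutFD)
open Pool.Agent.Helper14.MC (gx vx vx_UB)
open Pool.Agent.Helper3.KL (Cls fm_near vol_near)
open Pool.Agent.Helper89.RAK (DomJ)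

noncomputable section

variable {S : Sp} {M D : ℕ}

theorem adf_typ {ι κ : Type} [Fintype ι] [DecidableEq ι] {Φ : Gau S ι} {A : κ → Part S} {x : ∀ k, FD (S.F k) ι}
    (hx : Φ.Adf A x) (η : ℝ) (hη : 0 < η) :
    Tendsto (fun k => (x k).l.T.pb (fun ω => ¬ Φ.φ k ((x k).l.p.π ω) ((x k).g ω) ≤ 2 ^ (η * (S.F k).n))) UF (𝓝 0) := by
  rw [Metric.tendsto_nhds]
  intro ε hε
  obtain ⟨t, ht0, ht1, ht2⟩ : ∃ t : ℝ, 0 < t ∧ t ≤ η ∧ t ≤ ε / 2 :=
    ⟨min η (ε / 2), lt_min hη (by linarith), min_le_left _ _, min_le_right _ _⟩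
  filter_upwards [hx t ht0] with k hk
  have h1 := hk.2.2.1
  rw [Real.dist_eq, sub_zero, abs_of_nonneg (FSp.pb_nonneg _ _)]
  refine lt_of_le_of_lt (le_trans (FSp.pb_mono _ ?_) h1) (by linarith)
  intro ω _ h2 h3
  apply h2
  refine h3.trans (Real.rpow_le_rpow_of_exponent_le (by norm_num) ?_)
  exact mul_le_mul_of_nonneg_right ht1 (S.F k).pos.le

variable {Q : S.VV M} {l : Lab S} {La : Fin M → ℝ} (f : Frm Q l La)

/-- measurability of the charts at time `k` -/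
def FM (k : ℕ) : Prop := ∀ ω ω', (l k).T.μ ω ≠ 0 → (l k).T.μ ω' ≠ 0 → (l k).T.Z ω ω' → (l k).V ω ω' →
    f.P k ω = f.P k ω'

open Classical in
/-- the charts, guarded -/
def fP (k : ℕ) (ω : (l k).T.Ω) : Fin M → MvPolynomial (Fin M) ℝ := if FM f k then f.P k ω else fun _ => 0

theorem fP_tri (k : ℕ) (ω : (l k).T.Ω) (j : Fin M) : ∀ i ∈ (fP f k ω j).vars, i < j := by
  unfold fP
  split_ifs
  · exact f.tri k ω j
  · intro i hi
    simp at hi

theorem fP_deg {κ : ℕ} (hκ : ∀ k ω j, (f.P k ω j).totalDegree ≤ κ) (k : ℕ) (ω : (l k).T.Ω) (j : Fin M) :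
    (fP f k ω j).totalDegree ≤ κ := by
  unfold fP
  split_ifs
  · exact hκ k ω j
  · rw [totalDegree_zero]
    exact Nat.zero_le _

theorem fP_fn (k : ℕ) (ω ω' : (l k).T.Ω) (h : (l k).T.μ ω ≠ 0) (h' : (l k).T.μ ω' ≠ 0) (hZ : (l k).T.Z ω ω')
    (hV : (l k).V ω ω') : fP f k ω = fP f k ω' := by
  unfold fP
  split_ifs with h1
  · exact h1 ω ω' h h' hZ hV
  · rfl

theorem fP_ev : ∀ᶠ k in UF, ∀ ω, fP f k ω = f.P k ω := by
  filter_upwards [f.fn] with k hk ω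
  unfold fP
  exact if_pos fun ω ω' h h' hZ hV => hk ω ω' h h' hZ hV

/-- scales of the frame -/
def scl (La : Fin M → ℝ) (S : Sp) (k : ℕ) : Fin M → ℝ := fun i => S.dl (La i) k

theorem scl_ne (k : ℕ) (i : Fin M) : scl La S k i ≠ 0 := (S.dl_pos _ _).ne'

/-- the form of the box -/
def gfm (D κ : ℕ) (k : ℕ) (ω : (l k).T.Ω) : Matrix (Mon M D) (Mon M D) ℝ :=
  gch D (D * (κ + 1)) (fP f k ω) (scl La S k)

theorem gfm_meas (D κ : ℕ) : ∀ k ω ω', (l k).T.μ ω ≠ 0 → (l k).T.μ ω' ≠ 0 → (l k).V ω ω' → (l k).T.Z ω ω' →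
    gfm f D κ k ω = gfm f D κ k ω' := fun k ω ω' h h' hV hZ => by
  unfold gfm
  rw [fP_fn f k ω ω' h h' hZ hV]

/-- THE FORM OF THE BOX, a form over the label -/
def bfm (D κ : ℕ) : ∀ k, FD (S.F k) (Mon M D) := cutFD (gaq Q D) l (gfm f D κ) (gfm_meas f D κ)

theorem bfm_l (D κ : ℕ) (k : ℕ) : (bfm f D κ k).l = l k := rfl

section deg

variable {κ : ℕ} (hκ : ∀ k ω j, (f.P k ω j).totalDegree ≤ κ)

include hκ

theorem gfm_ge (D : ℕ) (k : ℕ) (ω : (l k).T.Ω) :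
    (gfm f D κ k ω).IsSymm ∧ ∀ x, x ⬝ᵥ x ≤ qf (gfm f D κ k ω) x :=
  ⟨gch_symm _ _, fun x => gch_ge (fP_tri f k ω) _ (scl_ne k) (fP_deg f hκ k ω) le_rfl x⟩

/-- sizes of the form of the box -/
theorem gfm_phi (h0 : ∀ i, 0 ≤ La i) (h1 : ∀ i, La i ≤ 1) (D : ℕ) : ∃ K : ℕ → ℝ, S.Sub K ∧ ∀ᶠ k in UF,
    ∀ ω : (l k).T.Ω, (l k).T.μ ω ≠ 0 → (gaq Q D).φ k ((l k).p.π ω) (gfm f D κ k ω) ≤ K k := by
  obtain ⟨Kn, hKn, hn⟩ := frow_near f hκ h0 (u := 0) (fun j => by rw [add_zero]; exact h1 j) (S.Sub_const zero_le_one)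
  obtain ⟨Kx, hKx', hx⟩ := f.X.bd
  have hKx : S.Sub Kx := (sp_Sub l).mp hKx'
  obtain ⟨Kq, hKq, hq⟩ := Q.bd
  refine ⟨fun k => nn M D * (Fintype.card (Mon M D) * (Kq k + 1) ^ (2 * D) +
    Fintype.card (Mon M (D * (κ + 1))) * (Kx k + Kn k + 1) ^ (2 * (D * (κ + 1)))), ?_, ?_⟩
  · have hnn := nn_one M D
    exact (S.Sub_const (by linarith)).mul (((S.Sub_const (Nat.cast_nonneg _)).mul
      (Sub_pow' (hKq.add (S.Sub_const zero_le_one)) _)).add ((S.Sub_const (Nat.cast_nonneg _)).mul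
        (Sub_pow' ((hKx.add hKn).add (S.Sub_const zero_le_one)) _)))
  · filter_upwards [hn, hx, hq, hKx.1, hKn.1, hKq.1, fP_ev f] with k a b c d1 d2 d3 e1 ω hω
    have hω' := (l k).p.supp ω hω
    have hr0 := S.dl_pos 1 k
    have hr1 : S.dl 1 k ≤ 1 := (S.dl_anti zero_le_one k).trans_eq (S.dl_zero k)
    show phi (S.dl 1 k) (gfm f D κ k ω) (Q.v k ((l k).p.π ω)) ≤ _
    unfold phi
    have key : ∀ j ∈ (Finset.univ : Finset (Fin M → Fin (D + 1))),
        vv (D := D) (nodp D (Q.v k ((l k).p.π ω)) (S.dl 1 k) j) ⬝ᵥ (gfm f D κ k ω *ᵥ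
          vv (nodp D (Q.v k ((l k).p.π ω)) (S.dl 1 k) j)) ≤ Fintype.card (Mon M D) * (Kq k + 1) ^ (2 * D) +
            Fintype.card (Mon M (D * (κ + 1))) * (Kx k + Kn k + 1) ^ (2 * (D * (κ + 1))) := by
      intro j _
      obtain ⟨z, hz⟩ : ∃ z, z = nodp D (Q.v k ((l k).p.π ω)) (S.dl 1 k) j := ⟨_, rfl⟩
      have hzn : ∀ i, |z i - Q.v k ((l k).p.π ω) i| ≤ 1 * S.dl 1 k := fun i => by
        rw [hz]
        exact node_near _ hr0.le j i
      obtain ⟨x', hx'⟩ : ∃ x' : Fin M → ℝ, x' = fun i => (scl La S k i)⁻¹ * eval z (inv (fP f k ω) i) := ⟨_, rfl⟩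
      have hzx : (fun i => eval x' (chp (fP f k ω) (scl La S k) i)) = z := by
        funext i
        rw [hx']
        exact chp_inv (fP_tri f k ω) (scl La S k) (scl_ne k) z i
      have hx'b : ∀ i, |x' i| ≤ Kx k + Kn k + 1 := fun i => by
        have h2 := a ω hω z hzn i
        have h3 := b ω hω i
        have h4 : eval z (frow f k ω i) = x' i := by
          rw [hx', e1]
          show eval z (C (S.dl (La i) k)⁻¹ * inv (f.P k ω) i) = _
          rw [map_mul, eval_C]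
          rfl
        rw [h4, S.dl_zero, mul_one] at h2
        have h5 := abs_add_le (x' i - f.X.v k ω i) (f.X.v k ω i)
        rw [sub_add_cancel] at h5
        linarith
      have hzb : ∀ i, |z i| ≤ Kq k + 1 := fun i => by
        have h2 := hzn i
        have h3 := c _ hω' i
        have h5 := abs_add_le (z i - Q.v k ((l k).p.π ω) i) (Q.v k ((l k).p.π ω) i)
        rw [sub_add_cancel] at h5
        linarith
      rw [← hz]
      have h6 := gch_val (D := D) (DD := D * (κ + 1)) (fP_tri f k ω) (scl La S k) (scl_ne k) (fP_deg f hκ k ω) le_rfl x'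
      rw [hzx] at h6
      refine h6.trans (add_le_add ?_ ?_)
      · exact vv_self_le z (by linarith) hzb
      · exact vv_self_le x' (by linarith) hx'b
    refine (Finset.sum_le_card_nsmul _ _ _ key).trans (le_of_eq ?_)
    rw [nsmul_eq_mul, card_nodes]

theorem gfm_cpd (h0 : ∀ i, 0 ≤ La i) (h1 : ∀ i, La i ≤ 1) (D : ℕ) : ∀ᶠ k in UF, ∀ ω : (l k).T.Ω,
    (l k).T.μ ω ≠ 0 → Cpd ((gaq Q D).cp k) (gfm f D κ k ω) := by
  obtain ⟨K, hK, hφ⟩ := gfm_phi f hκ h0 h1 D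
  filter_upwards [hφ, (gaq Q D).cap, hK.eventually_le one_pos] with k a b c ω hω
  have hω' := (l k).p.supp ω hω
  obtain ⟨g1, g2⟩ := gfm_ge f hκ D k ω
  refine ⟨g1, g2, fun x => ?_⟩
  refine (b _ hω' _ (pdM_of_one_le g1 g2) x).trans ?_
  apply mul_le_mul_of_nonneg_right _ (dot_self_nonneg x)
  unfold Gau.cp
  rw [add_mul, Real.rpow_add (by norm_num)]
  have := a ω hω
  exact mul_le_mul_of_nonneg_left (by linarith) (by positivity)

theorem bfm_g (h0 : ∀ i, 0 ≤ La i) (h1 : ∀ i, La i ≤ 1) (D : ℕ) : ∀ᶠ k in UF, ∀ ω : (l k).T.Ω,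
    (l k).T.μ ω ≠ 0 → (bfm f D κ k).g ω = gfm f D κ k ω := by
  filter_upwards [gfm_cpd f hκ h0 h1 D] with k hk ω hω
  exact cutm_pos (hk ω hω)

/-- the form of the box is admissible for all conditions of the label -/
theorem bfm_adf {κ' : Type} [Finite κ'] {A : κ' → Part S} (hl : l.DMf A) (h0 : ∀ i, 0 ≤ La i) (h1 : ∀ i, La i ≤ 1)
    (D : ℕ) : (gaq Q D).Adf A (bfm f D κ) := by
  obtain ⟨K, hK, hφ⟩ := gfm_phi f hκ h0 h1 D
  refine cut_adf l hl (gfm f D κ) (gfm_meas f D κ) (Eventually.of_forall fun k ω _ => gfm_ge f hκ D k ω) K hK ?_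
  refine typ_mono (S := l.sp) (Typ_true (S := l.sp)) ?_
  filter_upwards [hφ] with k hk ω hω _
  exact hk ω hω

end deg

end

end Pool.Agent.Helper26.BXD
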