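import Pool.Agent.Helper84.MT.Vol
import Pool.Agent.Helper63.FRT.Cof
import Pool.Agent.Helper7.GZ.Pb
import Pool.Agent.Helper3.LF.Cap
import Pool.Agent.Helper36.AM.Inv

/-! DERIVATIVES OF FORMS. The form `dM i A` is the form of the derivatives of the rows of `A` in the direction `i`. A
polynomial of degree at most `D` whose derivatives of order at most `D` at one tame point are small has small
coefficients; the same for forms. -/

set_option autoImplicit false

namespace Pool.Agent.Helper26.BXD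

open MvPolynomial Matrix Pool.Agent.Helper95.LF Pool.Agent.Helper3.LF Pool.Agent.Helper84.MT
open Pool.Agent.Helper7.GZ (cfv pol_cfv)

noncomputable section

variable {M D : ℕ}

/-! ### positive semidefinite forms -/

/-- factors of positive semidefinite forms -/
theorem exists_factor0 {κ : Type} [Fintype κ] [DecidableEq κ] (A : Matrix κ κ ℝ) (hA : A.IsSymm)
    (h0 : ∀ x, 0 ≤ x ⬝ᵥ (A *ᵥ x)) : ∃ C : Matrix κ κ ℝ, A = C.transpose * C := by
  obtain ⟨U, μ, hU1, hU2, hAU⟩ := exists_diag A hA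
  have hval : ∀ z : κ → ℝ, (U *ᵥ z) ⬝ᵥ (A *ᵥ (U *ᵥ z)) = ∑ i, μ i * z i ^ 2 := by
    intro z
    rw [← dv_conj, hAU]
    have : U.transpose * (U * Matrix.diagonal μ * U.transpose) * U = Matrix.diagonal μ := by
      calc U.transpose * (U * Matrix.diagonal μ * U.transpose) * U =
          (U.transpose * U) * Matrix.diagonal μ * (U.transpose * U) := by
            simp only [Matrix.mul_assoc]
        _ = Matrix.diagonal μ := by rw [hU2, Matrix.one_mul, Matrix.mul_one]
    rw [this]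
    simp only [dotProduct, Matrix.mulVec_diagonal]
    refine Finset.sum_congr rfl fun i _ => ?_
    ring
  have hμ : ∀ i, 0 ≤ μ i := by
    intro i
    have h2 := h0 (U *ᵥ (Pi.single i (1 : ℝ)))
    rw [hval, Finset.sum_eq_single i] at h2
    · simpa using h2
    · intro j _ hj
      simp [hj]
    · intro h
      exact absurd (Finset.mem_univ i) h
  refine ⟨Matrix.diagonal (fun i => Real.sqrt (μ i)) * U.transpose, ?_⟩
  rw [Matrix.transpose_mul, Matrix.transpose_transpose, Matrix.diagonal_transpose]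
  have : Matrix.diagonal μ = Matrix.diagonal (fun i => Real.sqrt (μ i)) *
      Matrix.diagonal (fun i => Real.sqrt (μ i)) := by
    rw [Matrix.diagonal_mul_diagonal]
    congr 1
    funext i
    exact (Real.mul_self_sqrt (hμ i)).symm
  rw [hAU, this]
  simp only [Matrix.mul_assoc]

/-- the trace of a factored form -/
theorem trace_rows {κ : Type} [Fintype κ] (C : Matrix κ κ ℝ) :
    (C.transpose * C).trace = ∑ k, ∑ a, C k a ^ 2 := by
  unfold Matrix.trace
  rw [Finset.sum_comm]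
  refine Finset.sum_congr rfl fun a _ => ?_
  rw [Matrix.diag_apply, Matrix.mul_apply]
  exact Finset.sum_congr rfl fun k _ => by rw [Matrix.transpose_apply, pow_two]

/-- a positive semidefinite form is below its trace -/
theorem qf_le_trace {κ : Type} [Fintype κ] [DecidableEq κ] {A : Matrix κ κ ℝ} (hA : A.IsSymm)
    (h0 : ∀ x, 0 ≤ x ⬝ᵥ (A *ᵥ x)) (x : κ → ℝ) : x ⬝ᵥ (A *ᵥ x) ≤ A.trace * (x ⬝ᵥ x) := by
  obtain ⟨C, rfl⟩ := exists_factor0 A hA h0
  rw [trace_rows, qf_rows, Finset.sum_mul]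
  refine Finset.sum_le_sum fun k _ => ?_
  have h1 := Finset.sum_mul_sq_le_sq_mul_sq (Finset.univ : Finset κ) (C k) x
  have h2 : ∑ a, x a ^ 2 = x ⬝ᵥ x := Finset.sum_congr rfl fun a _ => by ring
  rw [h2] at h1
  exact h1

theorem trace_nonneg' {κ : Type} [Fintype κ] [DecidableEq κ] {A : Matrix κ κ ℝ} (hA : A.IsSymm)
    (h0 : ∀ x, 0 ≤ x ⬝ᵥ (A *ᵥ x)) : 0 ≤ A.trace := by
  obtain ⟨C, rfl⟩ := exists_factor0 A hA h0
  rw [trace_rows]
  exact Finset.sum_nonneg fun _ _ => Finset.sum_nonneg fun _ _ => sq_nonneg _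

/-! ### derivatives -/

/-- the derivative in the direction `i` on the vectors of the monomials -/
def Nd (i : Fin M) : Matrix (Mon M D) (Mon M D) ℝ := Matrix.of fun a b => (pderiv i a.mon).coeff b.ex

theorem Nd_vv (i : Fin M) (x : Fin M → ℝ) : (Nd (D := D) i) *ᵥ vv x = dd i x := by
  funext a
  have h1 : (pderiv i a.mon).totalDegree ≤ D := pderiv_tdeg a.mon (mon_deg a) i
  have h2 : ((Nd (D := D) i) *ᵥ vv x) a = cfv D (pderiv i a.mon) ⬝ᵥ vv x := rfl
  rw [h2, ← eval_pol, pol_cfv _ h1]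
  rfl

theorem pol_Nd (i : Fin M) (c : Mon M D → ℝ) : pol (c ᵥ* Nd i) = pderiv i (pol c) := by
  have h1 : ∀ a : Mon M D, pderiv i a.mon = ∑ b : Mon M D, C ((pderiv i a.mon).coeff b.ex) * b.mon := by
    intro a
    exact (pol_cfv (DD := D) _ (pderiv_tdeg a.mon (mon_deg a) i)).symm
  unfold pol
  rw [map_sum]
  have h2 : ∀ a : Mon M D, pderiv i (C (c a) * a.mon) = ∑ b : Mon M D, C (c a * (pderiv i a.mon).coeff b.ex) * b.mon := by
    intro a
    rw [pderiv_C_mul]
    conv_lhs => rw [h1 a]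
    rw [Finset.mul_sum]
    refine Finset.sum_congr rfl fun b _ => ?_
    rw [C_mul, mul_assoc]
  rw [Finset.sum_congr rfl fun a _ => h2 a, Finset.sum_comm]
  refine Finset.sum_congr rfl fun b _ => ?_
  rw [← Finset.sum_mul, ← map_sum]
  rfl

/-- the form of the derivatives -/
def dM (i : Fin M) (A : Matrix (Mon M D) (Mon M D) ℝ) : Matrix (Mon M D) (Mon M D) ℝ := (Nd i).transpose * A * Nd i

theorem dM_qf (i : Fin M) (A : Matrix (Mon M D) (Mon M D) ℝ) (x : Mon M D → ℝ) :
    x ⬝ᵥ (dM i A *ᵥ x) = (Nd i *ᵥ x) ⬝ᵥ (A *ᵥ (Nd i *ᵥ x)) := dv_conj _ _ _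

theorem dM_nonneg (i : Fin M) {A : Matrix (Mon M D) (Mon M D) ℝ} (hA : ∀ x, 0 ≤ x ⬝ᵥ (A *ᵥ x)) (x : Mon M D → ℝ) :
    0 ≤ x ⬝ᵥ (dM i A *ᵥ x) := by
  rw [dM_qf]
  exact hA _

theorem dM_symm (i : Fin M) {A : Matrix (Mon M D) (Mon M D) ℝ} (hA : A.IsSymm) : (dM i A).IsSymm := by
  unfold Matrix.IsSymm dM
  rw [Matrix.transpose_mul, Matrix.transpose_mul, Matrix.transpose_transpose, hA.eq, Matrix.mul_assoc]

theorem dM_smul (i : Fin M) (c : ℝ) (A : Matrix (Mon M D) (Mon M D) ℝ) : dM i (c • A) = c • dM i A := by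
  unfold dM
  rw [Matrix.mul_smul, Matrix.smul_mul]

/-- size of the form of the derivatives -/
theorem phi_dM (i : Fin M) (r : ℝ) (A : Matrix (Mon M D) (Mon M D) ℝ) (p : Fin M → ℝ) :
    phi r (dM i A) p = ∑ j : Fin M → Fin (D + 1), dd i (nodp D p r j) ⬝ᵥ (A *ᵥ dd i (nodp D p r j)) := by
  unfold phi
  refine Finset.sum_congr rfl fun j _ => ?_
  rw [dM_qf, Nd_vv]

theorem Wq_single (i : Fin M) (p : Fin M → ℝ) : Wq M D p *ᵥ (Pi.single i (1 : ℝ)) = dd i p := by
  funext a
  rw [Matrix.mulVec_single_one]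
  rfl

/-- the size of the form of the derivatives is a diagonal entry of the gradient matrix -/
theorem phi_dM_Jq (i : Fin M) (r : ℝ) (A : Matrix (Mon M D) (Mon M D) ℝ) (p : Fin M → ℝ) :
    phi r (dM i A) p = (Pi.single i (1 : ℝ) : Fin M → ℝ) ⬝ᵥ (Jq r A p *ᵥ (Pi.single i (1 : ℝ))) := by
  rw [phi_dM, Jq_qf]
  exact Finset.sum_congr rfl fun j _ => by rw [Wq_single]

/-- rows of the form of the derivatives -/
theorem dM_rows (i : Fin M) (C : Matrix (Mon M D) (Mon M D) ℝ) :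
    dM i (C.transpose * C) = (C * Nd i).transpose * (C * Nd i) := by
  unfold dM
  rw [Matrix.transpose_mul]
  simp only [Matrix.mul_assoc]

theorem row_Nd (i : Fin M) (C : Matrix (Mon M D) (Mon M D) ℝ) (k : Mon M D) :
    pol ((C * Nd i : Matrix (Mon M D) (Mon M D) ℝ) k) = pderiv i (pol (C k)) := by
  rw [← pol_Nd]
  rfl

/-- derivatives along a list of directions -/
def dL : List (Fin M) → Matrix (Mon M D) (Mon M D) ℝ → Matrix (Mon M D) (Mon M D) ℝ
  | [], A => A
  | i :: L, A => dL L (dM i A)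

/-- derivatives of polynomials along a list of directions -/
def pdl : List (Fin M) → MvPolynomial (Fin M) ℝ → MvPolynomial (Fin M) ℝ
  | [], q => q
  | i :: L, q => pdl L (pderiv i q)

theorem dL_rows (L : List (Fin M)) : ∀ (C : Matrix (Mon M D) (Mon M D) ℝ) (x : Fin M → ℝ),
    vv x ⬝ᵥ (dL L (C.transpose * C) *ᵥ vv x) = ∑ k, (eval x (pdl L (pol (C k)))) ^ 2 := by
  induction L with
  | nil =>
    intro C x
    show vv x ⬝ᵥ ((C.transpose * C) *ᵥ vv x) = ∑ k, (eval x (pol (C k))) ^ 2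
    rw [qf_rows]
    exact Finset.sum_congr rfl fun k _ => by rw [eval_pol]
  | cons i L ih =>
    intro C x
    show vv x ⬝ᵥ (dL L (dM i (C.transpose * C)) *ᵥ vv x) = ∑ k, (eval x (pdl L (pderiv i (pol (C k))))) ^ 2
    rw [dM_rows, ih]
    exact Finset.sum_congr rfl fun k _ => by rw [row_Nd]

/-- mean value inequality -/
theorem mean_val (q : MvPolynomial (Fin M) ℝ) (x y : Fin M → ℝ) {R B : ℝ} (hR : 0 ≤ R) (hy : ∀ i, |y i - x i| ≤ R)
    (hB : ∀ i (z : Fin M → ℝ), (∀ j, |z j - x j| ≤ R) → |eval z (pderiv i q)| ≤ B) :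
    |eval y q - eval x q| ≤ M * (R * B) := by
  have h3 := norm_image_sub_le_of_norm_deriv_le_segment_01' (f := fun t => (lin x (fun i => y i - x i) q).eval t)
    (f' := fun t => (Polynomial.derivative (lin x (fun i => y i - x i) q)).eval t)
    (C := M * (R * B)) (fun t _ => (Polynomial.hasDerivAt _ t).hasDerivWithinAt) (by
      intro t ht
      rw [deriv_lin, Polynomial.eval_finsetSum, Real.norm_eq_abs]
      refine (Finset.abs_sum_le_sum_abs _ _).trans ?_
      have h4 : ∀ i ∈ (Finset.univ : Finset (Fin M)), |Polynomial.eval t (Polynomial.C (y i - x i) *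
          lin x (fun i => y i - x i) (pderiv i q))| ≤ R * B := by
        intro i _
        rw [Polynomial.eval_mul, Polynomial.eval_C, eval_lin, abs_mul]
        refine mul_le_mul (hy i) (hB i _ fun j => ?_) (abs_nonneg _) hR
        have e1 : x j + t * (y j - x j) - x j = t * (y j - x j) := by ring
        rw [e1, abs_mul]
        have h5 : |t| ≤ 1 := by rw [abs_le]; constructor <;> linarith [ht.1, ht.2]
        calc |t| * |y j - x j| ≤ 1 * R := mul_le_mul h5 (hy j) (abs_nonneg _) zero_le_one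
          _ = R := one_mul _
      refine (Finset.sum_le_card_nsmul _ _ _ h4).trans (le_of_eq ?_)
      rw [nsmul_eq_mul, Finset.card_univ, Fintype.card_fin])
  rw [Real.norm_eq_abs] at h3
  have e1 : (lin x (fun i => y i - x i) q).eval 1 = eval y q := by
    rw [eval_lin]
    have e2 : (fun k => x k + 1 * (y k - x k)) = y := funext fun i => by ring
    rw [e2]
  have e0 : (lin x (fun i => y i - x i) q).eval 0 = eval x q := by
    rw [eval_lin]
    have e2 : (fun k => x k + 0 * (y k - x k)) = x := funext fun i => by ring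
    rw [e2]
  rw [e1, e0] at h3
  exact h3

/-- a polynomial with small derivatives at one point is small -/
theorem val_of_der : ∀ (D : ℕ) (q : MvPolynomial (Fin M) ℝ), q.totalDegree ≤ D → ∀ (x : Fin M → ℝ) (τ R : ℝ), 0 ≤ R →
    (∀ L : List (Fin M), L.length ≤ D → |eval x (pdl L q)| ≤ τ) → ∀ y : Fin M → ℝ, (∀ i, |y i - x i| ≤ R) →
      |eval y q| ≤ τ * (1 + M * R) ^ D := by
  intro D
  induction D with
  | zero =>
    intro q hq x τ R hR h y hy
    have h1 : q = C (q.coeff 0) := totalDegree_eq_zero_iff_eq_C.1 (Nat.le_zero.1 hq)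
    have h2 := h [] (Nat.zero_le _)
    have h3 : eval x (pdl ([] : List (Fin M)) q) = eval x q := rfl
    rw [h3] at h2
    rw [pow_zero, mul_one]
    rw [h1, eval_C] at h2 ⊢
    exact h2
  | succ D ih =>
    intro q hq x τ R hR h y hy
    have hτ : 0 ≤ τ := (abs_nonneg _).trans (h [] (Nat.zero_le _))
    have h2 : |eval y q - eval x q| ≤ M * (R * (τ * (1 + M * R) ^ D)) := mean_val q x y hR hy fun i z hz =>
      ih (pderiv i q) (tdeg_pderiv i q D hq) x τ R hR
        (fun L hL => h (i :: L) (by rw [List.length_cons]; omega)) z hz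
    have h3 : |eval x q| ≤ τ := h [] (Nat.zero_le _)
    have h4 := abs_sub_abs_le_abs_sub (eval y q) (eval x q)
    have h5 : (1 : ℝ) ≤ (1 + M * R) ^ D := one_le_pow₀ (by
      have : 0 ≤ (M : ℝ) * R := by positivity
      linarith)
    have h6 : τ ≤ τ * (1 + M * R) ^ D := le_mul_of_one_le_right hτ h5
    calc |eval y q| ≤ τ + M * (R * (τ * (1 + M * R) ^ D)) := by linarith
      _ ≤ τ * (1 + M * R) ^ D + M * (R * (τ * (1 + M * R) ^ D)) := by linarith
      _ = τ * (1 + M * R) ^ (D + 1) := by ring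

/-- THE TRACE of a form is bounded by the derivatives at one point -/
theorem exists_trace_bd (M D : ℕ) : ∃ B : ℝ, 1 ≤ B ∧ ∀ (A : Matrix (Mon M D) (Mon M D) ℝ), A.IsSymm →
    (∀ v, 0 ≤ v ⬝ᵥ (A *ᵥ v)) → ∀ (x : Fin M → ℝ) (K τ : ℝ), 0 ≤ K → (∀ i, |x i| ≤ K) → 0 ≤ τ →
      (∀ L : List (Fin M), L.length ≤ D → vv x ⬝ᵥ (dL L A *ᵥ vv x) ≤ τ) →
        A.trace ≤ B * ((1 + M * (K + 1)) ^ D) ^ 2 * τ := by
  obtain ⟨B, hB1, hB⟩ := Pool.Agent.Helper63.FRT.exists_coef_bd M D
  have hc : (1 : ℝ) ≤ (Fintype.card (Mon M D) : ℝ) := by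
    have : 1 ≤ Fintype.card (Mon M D) := Fintype.card_pos
    exact_mod_cast this
  refine ⟨Fintype.card (Mon M D) * (Fintype.card (Mon M D) * B ^ 2), ?_, ?_⟩
  · have h1 : (1 : ℝ) ≤ B ^ 2 := one_le_pow₀ hB1
    exact one_le_mul_of_one_le_of_one_le hc (one_le_mul_of_one_le_of_one_le hc h1)
  · intro A hA h0 x K τ hK hx hτ h
    obtain ⟨C, rfl⟩ := exists_factor0 A hA h0
    rw [trace_rows]
    have h1 : ∀ k a, C k a ^ 2 ≤ B ^ 2 * ((1 + M * (K + 1)) ^ D) ^ 2 * τ := by
      intro k a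
      have h2 : ∀ L : List (Fin M), L.length ≤ D → |eval x (pdl L (pol (C k)))| ≤ Real.sqrt τ := by
        intro L hL
        apply Real.abs_le_sqrt
        refine le_trans ?_ (h L hL)
        rw [dL_rows]
        exact Finset.single_le_sum (f := fun k => (eval x (pdl L (pol (C k)))) ^ 2) (fun _ _ => sq_nonneg _)
          (Finset.mem_univ k)
      have h3 := hB (pol (C k)) (pol_deg _) (Real.sqrt τ * (1 + M * (K + 1)) ^ D) (fun y hy => by
        refine val_of_der D (pol (C k)) (pol_deg _) x _ (K + 1) (by linarith) h2 y fun i => ?_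
        have h4 := hy i
        have h5 := hx i
        refine (abs_sub _ _).trans ?_
        rw [abs_of_nonneg h4.1]
        linarith [h4.2]) a.ex
      rw [coeff_pol] at h3
      have h4 : C k a ^ 2 ≤ (B * (Real.sqrt τ * (1 + M * (K + 1)) ^ D)) ^ 2 := by
        rw [← sq_abs]
        exact pow_le_pow_left₀ (abs_nonneg _) h3 2
      refine h4.trans (le_of_eq ?_)
      rw [mul_pow, mul_pow, Real.sq_sqrt hτ]
      ring
    have h2 : ∀ k ∈ (Finset.univ : Finset (Mon M D)), ∑ a, C k a ^ 2 ≤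
        Fintype.card (Mon M D) * (B ^ 2 * ((1 + M * (K + 1)) ^ D) ^ 2 * τ) := by
      intro k _
      refine (Finset.sum_le_card_nsmul _ _ _ fun a _ => h1 k a).trans (le_of_eq ?_)
      rw [nsmul_eq_mul, Finset.card_univ]
    refine (Finset.sum_le_card_nsmul _ _ _ h2).trans (le_of_eq ?_)
    rw [nsmul_eq_mul, Finset.card_univ]
    ring

/-! ### small cells -/

/-- the constant -/
def cL (M D : ℕ) (K : ℝ) : ℝ := Fintype.card (Mon M D) * (M * (((D : ℝ) + 1) ^ M * (1 * (D * (K + 1) ^ D)))) ^ 2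

theorem vv_near (x y : Fin M → ℝ) {K r : ℝ} (hK : 0 ≤ K) (hx : ∀ i, |x i| ≤ K) (hr : 0 ≤ r) (hr1 : r ≤ 1)
    (hy : ∀ i, |y i - x i| ≤ r) :
    (fun a => vv (D := D) y a - vv x a) ⬝ᵥ (fun a => vv (D := D) y a - vv x a) ≤ cL M D K * r ^ 2 := by
  have h1 : ∀ a : Mon M D, |vv y a - vv x a| ≤ M * (r * (((D : ℝ) + 1) ^ M * (1 * (D * (K + 1) ^ D)))) := by
    intro a
    refine mean_val a.mon x y hr hy fun i z hz => ?_
    refine Pool.Agent.Helper36.AM.pderiv_le a.mon (mon_deg a) z (K + 1) 1 (by linarith) zero_le_one (fun j => ?_)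
      (fun s => ?_) i
    · have h2 := hz j
      have h3 := hx j
      have h4 := abs_sub_abs_le_abs_sub (z j) (x j)
      linarith
    · unfold Mon.mon
      rw [coeff_monomial]
      split_ifs
      · rw [abs_one]
      · rw [abs_zero]
        exact zero_le_one
  unfold dotProduct cL
  have h2 : ∀ a ∈ (Finset.univ : Finset (Mon M D)), (vv y a - vv x a) * (vv y a - vv x a) ≤
      (M * (r * (((D : ℝ) + 1) ^ M * (1 * (D * (K + 1) ^ D))))) ^ 2 := by
    intro a _
    rw [← pow_two, ← sq_abs]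
    exact pow_le_pow_left₀ (abs_nonneg _) (h1 a) 2
  refine (Finset.sum_le_card_nsmul _ _ _ h2).trans (le_of_eq ?_)
  rw [nsmul_eq_mul, Finset.card_univ]
  ring

theorem qf_add_le {κ : Type} [Fintype κ] {A : Matrix κ κ ℝ} (h0 : ∀ x, 0 ≤ x ⬝ᵥ (A *ᵥ x)) (x y : κ → ℝ) :
    (fun a => x a + y a) ⬝ᵥ (A *ᵥ (fun a => x a + y a)) ≤ 2 * (x ⬝ᵥ (A *ᵥ x)) + 2 * (y ⬝ᵥ (A *ᵥ y)) := by
  have h1 := h0 (x - y)
  have e1 : (fun a => x a + y a) = x + y := rfl
  rw [e1]
  rw [Matrix.mulVec_sub, sub_dotProduct, dotProduct_sub, dotProduct_sub] at h1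
  rw [Matrix.mulVec_add, add_dotProduct, dotProduct_add, dotProduct_add]
  linarith

/-- SMALL CELLS: the size of a form on a cell of side `r` from its value at the corner and its trace -/
theorem phi_near {A : Matrix (Mon M D) (Mon M D) ℝ} (hA : A.IsSymm) (h0 : ∀ v, 0 ≤ v ⬝ᵥ (A *ᵥ v)) (x : Fin M → ℝ)
    {K r : ℝ} (hK : 0 ≤ K) (hx : ∀ i, |x i| ≤ K) (hr : 0 ≤ r) (hr1 : r ≤ 1) :
    phi r A x ≤ nn M D * (2 * (vv x ⬝ᵥ (A *ᵥ vv x)) + 2 * (A.trace * (cL M D K * r ^ 2))) := by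
  unfold phi
  have h1 : ∀ j ∈ (Finset.univ : Finset (Fin M → Fin (D + 1))),
      vv (D := D) (nodp D x r j) ⬝ᵥ (A *ᵥ vv (nodp D x r j)) ≤
        2 * (vv x ⬝ᵥ (A *ᵥ vv x)) + 2 * (A.trace * (cL M D K * r ^ 2)) := by
    intro j _
    have e1 : vv (D := D) (nodp D x r j) = fun a => vv x a + (fun a => vv (nodp D x r j) a - vv x a) a := by
      funext a
      ring
    rw [e1]
    refine (qf_add_le h0 _ _).trans ?_
    have h2 := qf_le_trace hA h0 (fun a => vv (D := D) (nodp D x r j) a - vv x a)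
    have h3 := vv_near (D := D) x (nodp D x r j) hK hx hr hr1 (fun i => by
      unfold nodp
      rw [add_sub_cancel_left, abs_mul, abs_of_nonneg hr, abs_of_nonneg (nod_nonneg D _)]
      exact mul_le_of_le_one_right hr (nod_le D _ (Nat.le_of_lt_succ (j i).2)))
    have h4 := mul_le_mul_of_nonneg_left h3 (trace_nonneg' hA h0)
    linarith
  refine (Finset.sum_le_card_nsmul _ _ _ h1).trans (le_of_eq ?_)
  rw [nsmul_eq_mul, card_nodes]

end

end Pool.Agent.Helper26.BXD
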