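import Pool.Agent.Helper26.BXD.Tht
import Pool.Agent.Helper7.GZ.Frm
import Pool.Agent.Helper3.KL.Near

/-! THE CHART OF A FRAME in its own coordinates `X`: polynomial map `x_j = P_j (U) + U_j`, `U_i = 2 ^ (-La_i n) X_i`; its
Jacobian; the value of a pulled back form; bounds of gradients by the trace. -/

set_option autoImplicit false

namespace Pool.Agent.Helper26.BXD

open Finset Filter Topology Matrix MvPolynomial Pool.Agent.Helper69.RK Pool.Agent.Helper31.EC
open Pool.Agent.Helper31.EC.Sp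
open Pool.Agent.Helper40.EL Pool.Agent.Helper89.LX Pool.Agent.Helper3.LF Pool.Agent.Helper84.MT
open Pool.Agent.Helper95.LF Pool.Agent.Helper36.AM Pool.Agent.Helper7.GZ
open Pool.Agent.Helper81.MI (totalDegree_bind eval_bind)
open Pool.Agent.Helper14.MC (gx vx vx_UB)
open Pool.Agent.Helper3.KL (Cls fm_near vol_near)

noncomputable section

variable {M D DD : ℕ}

/-- the triangular chart with scales `d` -/
def chp (P : Fin M → MvPolynomial (Fin M) ℝ) (d : Fin M → ℝ) : Fin M → MvPolynomial (Fin M) ℝ := fun j =>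
  bind₁ (fun i => C (d i) * X i) (P j) + C (d j) * X j

theorem chp_eval (P : Fin M → MvPolynomial (Fin M) ℝ) (d : Fin M → ℝ) (x : Fin M → ℝ) (j : Fin M) :
    eval x (chp P d j) = eval (fun i => d i * x i) (P j) + d j * x j := by
  unfold chp
  rw [map_add, eval_bind, map_mul, eval_C, eval_X]
  have h1 : (fun i => eval x (C (d i) * X i : MvPolynomial (Fin M) ℝ)) = fun i => d i * x i := by
    funext i
    rw [map_mul, eval_C, eval_X]
  rw [h1]

theorem chp_deg (P : Fin M → MvPolynomial (Fin M) ℝ) (d : Fin M → ℝ) {κ : ℕ} (hκ : ∀ j, (P j).totalDegree ≤ κ)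
    (j : Fin M) : (chp P d j).totalDegree ≤ κ + 1 := by
  have h1 : ∀ i, (C (d i) * X i : MvPolynomial (Fin M) ℝ).totalDegree ≤ 1 := fun i => by
    refine (totalDegree_mul _ _).trans ?_
    rw [totalDegree_C, totalDegree_X]
  unfold chp
  refine (totalDegree_add _ _).trans (max_le ?_ ((h1 j).trans (Nat.le_add_left _ _)))
  refine (totalDegree_bind (P j) (hκ j) _ h1).trans ?_
  omega

/-- the Jacobian determinant of the chart -/
theorem jac_chp {P : Fin M → MvPolynomial (Fin M) ℝ} (tri : ∀ j, ∀ i ∈ (P j).vars, i < j) (d : Fin M → ℝ)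
    (x : Fin M → ℝ) : (jac (chp P d) x).det = ∏ i, d i := by
  classical
  have h0 : ∀ j a : Fin M, j ≤ a → jac (chp P d) x j a = if a = j then d j else 0 := by
    intro j a ha
    show eval x (pderiv a (chp P d j)) = _
    unfold chp
    rw [map_add, Pool.Agent.Helper7.GZ.pderiv_bind']
    have h1 : ∑ i, bind₁ (fun i => C (d i) * X i) (pderiv i (P j)) * pderiv a (C (d i) * X i : MvPolynomial (Fin M) ℝ) = 0 := by
      apply Finset.sum_eq_zero
      intro i _
      by_cases hi : i ∈ (P j).vars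
      · have hij := tri j i hi
        have h2 : pderiv a (C (d i) * X i : MvPolynomial (Fin M) ℝ) = 0 := by
          rw [pderiv_C_mul, pderiv_X_of_ne (fun h : i = a => by
            rw [h] at hij
            exact absurd hij (not_lt_of_ge ha)), mul_zero]
        rw [h2, mul_zero]
      · rw [pderiv_eq_zero_of_notMem_vars hi, map_zero, zero_mul]
    rw [h1, zero_add, pderiv_C_mul, map_mul, eval_C]
    by_cases h : a = j
    · rw [if_pos h, h, pderiv_X_self, map_one, mul_one]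
    · rw [if_neg h, pderiv_X_of_ne (fun h' => h h'.symm), map_zero, mul_zero]
  rw [Matrix.det_of_isLowerTriangular]
  · exact Finset.prod_congr rfl fun i _ => by rw [h0 i i le_rfl, if_pos rfl]
  · intro i j hij
    have h1 : i < j := hij
    rw [h0 i j h1.le, if_neg h1.ne']

/-- the value of the pulled back form -/
theorem sbf_val {m : ℕ} (P : Fin m → MvPolynomial (Fin M) ℝ) {p : ℕ} (hP : ∀ i, (P i).totalDegree ≤ p)
    (hDD : D * p ≤ DD) (r : ℝ) (B : Matrix (Mon m D) (Mon m D) ℝ) (x : Fin M → ℝ) :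
    vv x ⬝ᵥ (sbf DD P r B *ᵥ vv x) = phi r B (fun i => eval x (P i)) := by
  rw [sbf_qf]
  unfold phi
  refine Finset.sum_congr rfl fun j _ => ?_
  rw [Tm_vv (shP D P r j) (shP_deg P hP r j) hDD, shP_eval]

theorem dd_le (x : Fin M → ℝ) {R : ℝ} (hR : 1 ≤ R) (hx : ∀ i, |x i| ≤ R) (i : Fin M) :
    dd (D := D) i x ⬝ᵥ dd i x ≤ Fintype.card (Mon M D) * (((D : ℝ) + 1) ^ M * (1 * (D * R ^ D))) ^ 2 := by
  have h1 : ∀ a : Mon M D, |dd i x a| ≤ ((D : ℝ) + 1) ^ M * (1 * (D * R ^ D)) := by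
    intro a
    refine pderiv_le a.mon (Pool.Agent.Helper3.LF.mon_deg a) x R 1 hR zero_le_one hx (fun s => ?_) i
    unfold Mon.mon
    rw [coeff_monomial]
    split_ifs
    · rw [abs_one]
    · rw [abs_zero]
      exact zero_le_one
  unfold dotProduct
  have h2 : ∀ a ∈ (Finset.univ : Finset (Mon M D)), dd i x a * dd i x a ≤
      (((D : ℝ) + 1) ^ M * (1 * (D * R ^ D))) ^ 2 := by
    intro a _
    rw [← pow_two, ← sq_abs]
    exact pow_le_pow_left₀ (abs_nonneg _) (h1 a) 2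
  refine (Finset.sum_le_card_nsmul _ _ _ h2).trans (le_of_eq ?_)
  rw [nsmul_eq_mul, Finset.card_univ]

/-- the constant of `gam_le_trace` -/
def cG (M D : ℕ) (R : ℝ) : ℝ :=
  M * (nn M D * (Fintype.card (Mon M D) * (((D : ℝ) + 1) ^ M * (1 * (D * R ^ D))) ^ 2))

theorem cG_nonneg (M D : ℕ) (R : ℝ) : 0 ≤ cG M D R := by
  have := nn_one M D
  unfold cG
  positivity

theorem Sub_cG {S : Sp} {K : ℕ → ℝ} (hK : S.Sub K) : S.Sub (fun k => cG M D (K k)) := by
  have hnn := nn_one M D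
  unfold cG
  exact (S.Sub_const (Nat.cast_nonneg _)).mul ((S.Sub_const (by linarith)).mul ((S.Sub_const (Nat.cast_nonneg _)).mul
    (Sub_pow' ((S.Sub_const (by positivity)).mul ((S.Sub_const zero_le_one).mul ((S.Sub_const (Nat.cast_nonneg _)).mul
      (Sub_pow' hK D)))) 2)))

/-- gradients from the trace -/
theorem gam_le_trace {A : Matrix (Mon M D) (Mon M D) ℝ} (hA : A.IsSymm) (h0 : ∀ v, 0 ≤ v ⬝ᵥ (A *ᵥ v)) {r R : ℝ}
    (hr : 0 ≤ r) (hR : 1 ≤ R) (x : Fin M → ℝ) (hx : ∀ i, |x i| + r ≤ R) : gam r A x ≤ cG M D R * A.trace := by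
  have ht := trace_nonneg' hA h0
  unfold gam cG
  have h1 : ∀ i ∈ (Finset.univ : Finset (Fin M)), ∑ j : Fin M → Fin (D + 1), dd i (nodp D x r j) ⬝ᵥ
      (A *ᵥ dd i (nodp D x r j)) ≤ nn M D * (A.trace * (Fintype.card (Mon M D) *
        (((D : ℝ) + 1) ^ M * (1 * (D * R ^ D))) ^ 2)) := by
    intro i _
    have h2 : ∀ j ∈ (Finset.univ : Finset (Fin M → Fin (D + 1))), dd (D := D) i (nodp D x r j) ⬝ᵥ
        (A *ᵥ dd i (nodp D x r j)) ≤ A.trace * (Fintype.card (Mon M D) *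
          (((D : ℝ) + 1) ^ M * (1 * (D * R ^ D))) ^ 2) := by
      intro j _
      refine (qf_le_trace hA h0 _).trans (mul_le_mul_of_nonneg_left (dd_le _ hR (fun i => ?_) i) ht)
      unfold nodp
      refine (abs_add_le _ _).trans ((add_le_add le_rfl ?_).trans (hx i))
      rw [abs_mul, abs_of_nonneg hr, abs_of_nonneg (nod_nonneg D _)]
      exact mul_le_of_le_one_right hr (nod_le D _ (Nat.le_of_lt_succ (j i).2))
    refine (Finset.sum_le_card_nsmul _ _ _ h2).trans (le_of_eq ?_)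
    rw [nsmul_eq_mul, card_nodes]
  refine (Finset.sum_le_card_nsmul _ _ _ h1).trans (le_of_eq ?_)
  rw [nsmul_eq_mul, Finset.card_univ, Fintype.card_fin]
  ring

/-- volumes from the trace: `GQ (1 + A)` -/
theorem GQ_le_trace {A : Matrix (Mon M D) (Mon M D) ℝ} (hA : A.IsSymm) (h0 : ∀ v, 0 ≤ v ⬝ᵥ (A *ᵥ v)) {r R : ℝ}
    (hr : 0 ≤ r) (hR : 1 ≤ R) (x : Fin M → ℝ) (hx : ∀ i, |x i| + r ≤ R) :
    GQ r (1 + A) x ≤ (1 + cG M D R * (Fintype.card (Mon M D) + A.trace)) ^ M := by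
  have ht := trace_nonneg' hA h0
  have hc := cG_nonneg M D R
  have hs : (1 + A).IsSymm := Matrix.isSymm_one.add hA
  have h1 : ∀ v : Mon M D → ℝ, v ⬝ᵥ v ≤ v ⬝ᵥ ((1 + A) *ᵥ v) := fun v => by
    rw [dv_add, Matrix.one_mulVec]
    have := h0 v
    linarith
  have h2 : ∀ v : Mon M D → ℝ, 0 ≤ v ⬝ᵥ ((1 + A) *ᵥ v) := fun v => (self_nonneg' v).trans (h1 v)
  have hP : PdM (1 + A) := pdM_of_one_le hs h1
  have h3 := det_le_pow_one (one_Jq_pd r hs h2 x) (K := 1 + cG M D R * (Fintype.card (Mon M D) + A.trace))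
    (by positivity) (fun v => by
      rw [dv_add, one_dv, add_mul, one_mul]
      have h4 := Jq_gam r (1 + A) hP x v
      have h5 := gam_le_trace hs h2 hr hR x hx
      rw [Matrix.trace_add, Matrix.trace_one] at h5
      have h6 := self_nonneg' v
      have h7 := mul_le_mul_of_nonneg_right h5 h6
      linarith)
  rw [Fintype.card_fin] at h3
  exact h3

/-! ### close points -/

theorem NG.near {S : Sp} {κ : Type} [Finite κ] {C : LC S} {Q Q' : S.VV M} {A : κ → Part S} (h : NG C Q A) (hQ : Cls Q Q') :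
    NG C Q' A := by
  intro D y hy
  have h1 : (gaq Q' D).Fm y := (Gau.Adf_iff.mp hy.1).2
  have h2 : (gaq Q D).Fm y := fm_near hQ.symm h1
  have h3 := h D y ⟨Gau.Adf_iff.mpr ⟨(Gau.Adf_iff.mp hy.1).1, h2⟩, hy.2⟩
  have h4 := vol_near hQ h2
  rw [Pool.Agent.Helper14.MC.vol_eq, Pool.Agent.Helper14.MC.vol_eq] at h4
  linarith

end

end Pool.Agent.Helper26.BXD
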