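import Pool.Agent.Helper26.BXD.Box

/-! BOX DOMINATION, end: pulled back forms of a class without gain have tame traces; the form of the box dominates all
forms of the class; volumes; transitivity of the domination in the joins. -/

set_option autoImplicit false

namespace Pool.Agent.Helper26.BXD

open Finset Filter Topology Matrix MvPolynomial Pool.Agent.Helper69.RK Pool.Agent.Helper31.EC
open Pool.Agent.Helper31.EC.Sp
open Pool.Agent.Helper40.EL Pool.Agent.Helper89.LX Pool.Agent.Helper3.LF Pool.Agent.Helper84.MT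
open Pool.Agent.Helper95.LF Pool.Agent.Helper36.AM Pool.Agent.Helper7.GZ
open Pool.Agent.Helper3.PR (cutm cutm_cpd cutFD)
open Pool.Agent.Helper14.MC (gx vx vx_UB)
open Pool.Agent.Helper3.KL (Cls fm_near vol_near)
open Pool.Agent.Helper89.RAK (DomJ)

noncomputable section

variable {S : Sp} {M D : ℕ} {Q : S.VV M} {l : Lab S} {La : Fin M → ℝ} (f : Frm Q l La)

/-- the chart at the point of the box -/
theorem chart_pt : ∃ K : ℕ → ℝ, S.Sub K ∧ ∀ᶠ k in UF, ∀ ω : (l k).T.Ω, (l k).T.μ ω ≠ 0 → ∀ j,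
    |Q.v k ((l k).p.π ω) j - eval (f.X.v k ω) (chp (fP f k ω) (scl La S k) j)| ≤ K k * S.dl 1 k := by
  obtain ⟨K, hK, h1⟩ := f.pt
  refine ⟨K, hK, ?_⟩
  filter_upwards [h1, fP_ev f] with k a b ω hω j
  rw [b, chp_eval]
  exact a ω hω j

/-- the pulled back forms, over the label -/
def pG (e : ℝ) (he : 0 < e) (κ : ℕ) (x : ∀ k, FD (S.F k) (Mon M D)) : Fm (l.ovl e he (lb x)) M (D * (κ + 1)) where
  g := fun k w => sbf (D * (κ + 1)) (chp (fP f k (((l k).am (x k).l).p1.π w)) (scl La S k)) (S.dl 1 k)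
    (cutm ((gaq Q D).cp k) ((x k).g (((l k).am (x k).l).p2.π w)))
  ms := fun k w w' a a' hV hZ => by
    have a1 := ((l k).am (x k).l).p1.supp w a
    have a1' := ((l k).am (x k).l).p1.supp w' a'
    have a2 := ((l k).am (x k).l).p2.supp w a
    have a2' := ((l k).am (x k).l).p2.supp w' a'
    have c1 : (l k).V (((l k).am (x k).l).p1.π w) (((l k).am (x k).l).p1.π w') := hZ.1
    have c2 : ((l k).am (x k).l).sp.Z w w' := hZ.2
    have c3 : (x k).l.V (((l k).am (x k).l).p2.π w) (((l k).am (x k).l).p2.π w') := hV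
    rw [fP_fn f k _ _ a1 a1' ((((l k).am (x k).l).p1.hZ w w' a a').1 c2) c1,
      ((x k).meas _ _ a2 a2' c3 ((((l k).am (x k).l).p2.hZ w w' a a').1 c2)).1]
  sy := fun k w => sbf_symm _ _ (cutm_cpd ((gaq Q D).one_le_cp k) _).1
  nn := fun k w => sbf_nonneg _ _ fun v => (cutm_cpd ((gaq Q D).one_le_cp k) _).psd.2 v

variable {κ : ℕ} (hκ : ∀ k ω j, (f.P k ω j).totalDegree ≤ κ) {e : ℝ} {he : 0 < e} {κ₁ κ₂ : Type} [Finite κ₂]
  {A : κ₁ → Part S} {B : κ₂ → Part (l.ovr e he)} {C : LC S} {C' : LC (l.ovr e he)}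

include hκ

/-- THE TRACES of the pulled back forms are tame -/
theorem pull_trace (hAB : ∀ i', ∃ i, PLe (l.up e he (A i)) (B i')) {x : ∀ k, FD (S.F k) (Mon M D)}
    (hx : (gaq Q D).Adf A x) (hC : C'.ev (l.ovl e he (lb x))) (hN : NG C' (f.X.chg l.V e he) B) (δ : ℝ) (hδ : 0 < δ) :
    Tendsto (fun k => ((l k).am (x k).l).sp.pb (fun w => ¬ (sbf (D * (κ + 1))
      (chp (fP f k (((l k).am (x k).l).p1.π w)) (scl La S k)) (S.dl 1 k)
        (cutm ((gaq Q D).cp k) ((x k).g (((l k).am (x k).l).p2.π w)))).trace ≤ 2 ^ (δ * (S.F k).n))) UF (𝓝 0) := by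
  obtain ⟨Kp, hKp, hp⟩ := chart_pt f
  have hl : (l.ovl e he (lb x)).DMf B := Lab.DMf.mono (Lab.DMf.ovl (Gau.Adf.dm _ hx) l e he) hAB
  have hcst : S.Sub (fun k => nn M D * (Cu D * Cm M D * (Kp k + 1) ^ D) ^ 2) := by
    have h1 := nn_one M D
    have h2 := Cu_one D
    have h3 := Cm_one M D
    exact (S.Sub_const (by linarith)).mul (Sub_pow' ((S.Sub_const (by positivity)).mul
      (Sub_pow' (hKp.add (S.Sub_const zero_le_one)) D)) 2)
  have key := noalg (l := l.ovl e he (lb x)) hN hl hC (pG f e he κ x) (fun η hη => by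
    have hη2 : 0 < η * e / 2 := by positivity
    refine squeeze_zero' (Eventually.of_forall fun k => FSp.pb_nonneg _ _) ?_ (adf_typ hx (η * e / 2) hη2)
    filter_upwards [hx 1 one_pos, hp, hKp.1, hcst.eventually_le hη2] with k a b c d
    rw [← pb_push ((l k).am (x k).l).p2 (fun ω => ¬ (gaq Q D).φ k ((x k).l.p.π ω) ((x k).g ω) ≤
      2 ^ (η * e / 2 * (S.F k).n))]
    apply FSp.pb_mono
    intro (w : ((l k).am (x k).l).sp.Ω) hw h1 h2
    apply h1
    have s1 := ((l k).am (x k).l).p1.supp w hw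
    have s2 := ((l k).am (x k).l).p2.supp w hw
    have s3 : (l k).p.π (((l k).am (x k).l).p1.π w) = (x k).l.p.π (((l k).am (x k).l).p2.π w) :=
      (((l k).am (x k).l).supp w hw).1
    have s4 := (l k).p.supp _ s1
    have hC1 := (a.2.1 _ s2).1
    show vv (f.X.v k (((l k).am (x k).l).p1.π w)) ⬝ᵥ (sbf (D * (κ + 1)) (chp (fP f k (((l k).am (x k).l).p1.π w))
      (scl La S k)) (S.dl 1 k) (cutm ((gaq Q D).cp k) ((x k).g (((l k).am (x k).l).p2.π w))) *ᵥ
        vv (f.X.v k (((l k).am (x k).l).p1.π w))) ≤ 2 ^ (η * ((l.ovr e he).F k).n)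
    rw [cutm_pos hC1, sbf_val (chp (fP f k (((l k).am (x k).l).p1.π w)) (scl La S k))
      (fun i => chp_deg _ _ (fP_deg f hκ k _) i) le_rfl]
    have h3 := phi_comp ((x k).g (((l k).am (x k).l).p2.π w)) hC1.pdM (S.dl 1 k) (S.dl 1 k) (Kp k + 1) (S.dl_pos 1 k)
      (S.dl_pos 1 k).le (by linarith) (Q.v k ((l k).p.π (((l k).am (x k).l).p1.π w)))
      (fun i => eval (f.X.v k (((l k).am (x k).l).p1.π w)) (chp (fP f k (((l k).am (x k).l).p1.π w)) (scl La S k) i))
      (fun i => by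
        rw [abs_sub_comm, add_mul, one_mul]
        exact add_le_add (b _ s1 i) le_rfl)
    refine h3.trans ?_
    have h4 : phi (S.dl 1 k) ((x k).g (((l k).am (x k).l).p2.π w)) (Q.v k ((l k).p.π (((l k).am (x k).l).p1.π w))) ≤
        2 ^ (η * e / 2 * (S.F k).n) := by
      rw [s3]
      exact h2
    have h5 := phi_nonneg (S.dl 1 k) (fun v => hC1.pdM.nonneg v) (Q.v k ((l k).p.π (((l k).am (x k).l).p1.π w)))
    have hn : ((l.ovr e he).F k).n = e * (S.F k).n := l.n_over e he k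
    rw [hn]
    calc nn M D * (Cu D * Cm M D * (Kp k + 1) ^ D) ^ 2 * phi (S.dl 1 k) ((x k).g (((l k).am (x k).l).p2.π w))
          (Q.v k ((l k).p.π (((l k).am (x k).l).p1.π w))) ≤
        2 ^ (η * e / 2 * (S.F k).n) * 2 ^ (η * e / 2 * (S.F k).n) :=
          mul_le_mul (by linarith) h4 h5 (by positivity)
      _ = 2 ^ (η * (e * (S.F k).n)) := by
          rw [← Real.rpow_add (by norm_num)]
          congr 1
          ring) (δ / e) (by positivity)
  refine key.congr fun k => ?_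
  have hn : ((l.ovr e he).F k).n = e * (S.F k).n := l.n_over e he k
  rw [hn]
  have e1 : δ / e * (e * (S.F k).n) = δ * (S.F k).n := by field_simp
  rw [e1]
  rfl

/-- BOX DOMINATION: the form of the box dominates every form of a class without gain over the box -/
theorem box_dom (h0 : ∀ i, 0 ≤ La i) (h1 : ∀ i, La i ≤ 1) (hAB : ∀ i', ∃ i, PLe (l.up e he (A i)) (B i'))
    {x : ∀ k, FD (S.F k) (Mon M D)} (hx : (gaq Q D).Adf A x) (hC : C'.ev (l.ovl e he (lb x)))
    (hN : NG C' (f.X.chg l.V e he) B) : DomJ (bfm f D κ) x := by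
  intro δ hδ
  have key := pull_trace f hκ hAB hx hC hN δ hδ
  refine squeeze_zero' (Eventually.of_forall fun k => FSp.pb_nonneg _ _) ?_ key
  filter_upwards [hx 1 one_pos, bfm_g f hκ h0 h1 D] with k a b
  apply FSp.pb_mono
  intro (w : ((l k).am (x k).l).sp.Ω) hw h2 h3
  apply h2
  have s1 := ((l k).am (x k).l).p1.supp w hw
  have s2 := ((l k).am (x k).l).p2.supp w hw
  have hC1 := (a.2.1 _ s2).1
  rw [cutm_pos hC1] at h3
  intro v
  show qf ((x k).g (((l k).am (x k).l).p2.π w)) v ≤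
    2 ^ (δ * (S.F k).n) * qf ((bfm f D κ k).g (((l k).am (x k).l).p1.π w)) v
  rw [b _ s1]
  have h4 := gch_dom (D := D) (DD := D * (κ + 1)) (fP_tri f k (((l k).am (x k).l).p1.π w)) (scl La S k) (scl_ne k)
    (fP_deg f hκ k _) le_rfl hC1.1 (fun v => hC1.psd.2 v) (S.dl 1 k) v
  have h5 : 0 ≤ v ⬝ᵥ (gch D (D * (κ + 1)) (fP f k (((l k).am (x k).l).p1.π w)) (scl La S k) *ᵥ v) :=
    (self_nonneg' v).trans (gch_ge (fP_tri f k _) (scl La S k) (scl_ne k) (fP_deg f hκ k _) le_rfl v)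
  exact h4.trans (mul_le_mul_of_nonneg_right h3 h5)

end

end Pool.Agent.Helper26.BXD
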