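import Pool.Agent.Helper26.BXD.Cht

/-! THE LARGEST FORM WHICH IS TAME IN THE COORDINATES OF A CHART: Gram matrices. If `T` is the matrix of the coefficients
of `q o Φ` then every form `A` of degree `D` is at most `trace (T A T^t)` times the form `(T^t T)^-1`. -/

set_option autoImplicit false

namespace Pool.Agent.Helper26.BXD

open Finset Matrix MvPolynomial Pool.Agent.Helper95.LF Pool.Agent.Helper3.LF Pool.Agent.Helper84.MT
open Pool.Agent.Helper36.AM Pool.Agent.Helper7.GZ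
open Pool.Agent.Helper81.MI (totalDegree_bind eval_bind)

noncomputable section

section gram

variable {α β : Type} [Fintype α] [DecidableEq α] [Fintype β] [DecidableEq β] (T : Matrix α β ℝ)

/-- inverse of the Gram matrix -/
def gri : Matrix β β ℝ := (T.transpose * T)⁻¹

omit [DecidableEq α] [DecidableEq β] in
theorem gr_bil (u v : β → ℝ) : u ⬝ᵥ ((T.transpose * T) *ᵥ v) = (T *ᵥ u) ⬝ᵥ (T *ᵥ v) := by
  rw [← Matrix.mulVec_mulVec, Matrix.dotProduct_mulVec, Matrix.vecMul_transpose]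

variable (hT : ∀ c, T *ᵥ c = 0 → c = 0)

include hT

omit [DecidableEq α] [DecidableEq β] in
theorem gr_pd : PdM (T.transpose * T) := by
  refine ⟨?_, fun v hv => ?_⟩
  · unfold Matrix.IsSymm
    rw [Matrix.transpose_mul, Matrix.transpose_transpose]
  · rw [gr_bil]
    have h1 : T *ᵥ v ≠ 0 := fun h => hv (hT v h)
    obtain ⟨a, ha⟩ := Function.ne_iff.1 h1
    unfold dotProduct
    refine lt_of_lt_of_le (mul_self_pos.2 ha) ?_
    exact Finset.single_le_sum (f := fun a => (T *ᵥ v) a * (T *ᵥ v) a) (fun _ _ => mul_self_nonneg _)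
      (Finset.mem_univ a)

omit [DecidableEq α] in
theorem gr_unit : IsUnit (T.transpose * T).det := isUnit_iff_ne_zero.2 (gr_pd T hT).det_pos.ne'

omit [DecidableEq α] in
theorem gr_inv (v : β → ℝ) : (T.transpose * T) *ᵥ (gri T *ᵥ v) = v := by
  unfold gri
  rw [Matrix.mulVec_mulVec, Matrix.mul_nonsing_inv _ (gr_unit T hT), Matrix.one_mulVec]

omit [DecidableEq α] in
theorem gri_qf (v : β → ℝ) : v ⬝ᵥ (gri T *ᵥ v) = (T *ᵥ (gri T *ᵥ v)) ⬝ᵥ (T *ᵥ (gri T *ᵥ v)) := by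
  rw [← gr_bil, gr_inv T hT, dotProduct_comm]

omit [DecidableEq α] hT in
theorem gri_symm : (gri T).IsSymm := by
  unfold Matrix.IsSymm gri
  rw [Matrix.transpose_nonsing_inv, Matrix.transpose_mul, Matrix.transpose_transpose]

omit [DecidableEq α] in
theorem gri_nonneg (v : β → ℝ) : 0 ≤ v ⬝ᵥ (gri T *ᵥ v) := by
  rw [gri_qf T hT]
  unfold dotProduct
  exact Finset.sum_nonneg fun _ _ => mul_self_nonneg _

omit [DecidableEq α] in
/-- projections -/
theorem gri_tr (u : α → ℝ) : (T.transpose *ᵥ u) ⬝ᵥ (gri T *ᵥ (T.transpose *ᵥ u)) ≤ u ⬝ᵥ u := by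
  obtain ⟨w, hw⟩ : ∃ w, w = gri T *ᵥ (T.transpose *ᵥ u) := ⟨_, rfl⟩
  have h1 : (T.transpose *ᵥ u) ⬝ᵥ (gri T *ᵥ (T.transpose *ᵥ u)) = (T *ᵥ w) ⬝ᵥ (T *ᵥ w) := by
    rw [gri_qf T hT, ← hw]
  have h2 : (T.transpose *ᵥ u) ⬝ᵥ w = u ⬝ᵥ (T *ᵥ w) := by
    rw [Matrix.mulVec_transpose, ← Matrix.dotProduct_mulVec]
  have h3 : (T.transpose *ᵥ u) ⬝ᵥ (gri T *ᵥ (T.transpose *ᵥ u)) = u ⬝ᵥ (T *ᵥ w) := by rw [← hw, h2]
  have h4 : 0 ≤ (u - T *ᵥ w) ⬝ᵥ (u - T *ᵥ w) := by
    unfold dotProduct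
    exact Finset.sum_nonneg fun _ _ => mul_self_nonneg _
  rw [sub_dotProduct, dotProduct_sub, dotProduct_sub, dotProduct_comm (T *ᵥ w) u] at h4
  linarith

omit [DecidableEq α] in
/-- domination by the Gram form -/
theorem gri_dom {A : Matrix β β ℝ} (hA : A.IsSymm) (h0 : ∀ x, 0 ≤ x ⬝ᵥ (A *ᵥ x)) (v : β → ℝ) :
    v ⬝ᵥ (A *ᵥ v) ≤ (T * A * T.transpose).trace * (v ⬝ᵥ (gri T *ᵥ v)) := by
  obtain ⟨C, rfl⟩ := exists_factor0 A hA h0
  obtain ⟨w, hw⟩ : ∃ w, w = gri T *ᵥ v := ⟨_, rfl⟩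
  have h1 : (T * (C.transpose * C) * T.transpose).trace = ∑ k, (T *ᵥ C k) ⬝ᵥ (T *ᵥ C k) := by
    have e1 : T * (C.transpose * C) * T.transpose = (C * T.transpose).transpose * (C * T.transpose) := by
      rw [Matrix.transpose_mul, Matrix.transpose_transpose]
      simp only [Matrix.mul_assoc]
    rw [e1]
    unfold Matrix.trace
    have e2 : ∀ a, ((C * T.transpose).transpose * (C * T.transpose)).diag a = ∑ k, (T *ᵥ C k) a * (T *ᵥ C k) a := by
      intro a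
      rw [Matrix.diag_apply, Matrix.mul_apply]
      refine Finset.sum_congr rfl fun k _ => ?_
      have e3 : (C * T.transpose) k a = (T *ᵥ C k) a := by
        rw [Matrix.mul_apply]
        unfold Matrix.mulVec dotProduct
        exact Finset.sum_congr rfl fun b _ => mul_comm _ _
      rw [Matrix.transpose_apply, e3]
    rw [Finset.sum_congr rfl fun a _ => e2 a, Finset.sum_comm]
    rfl
  rw [h1, qf_rows, Finset.sum_mul]
  refine Finset.sum_le_sum fun k _ => ?_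
  have h2 : C k ⬝ᵥ v = (T *ᵥ C k) ⬝ᵥ (T *ᵥ w) := by
    rw [← gr_bil, hw, gr_inv T hT]
  rw [h2, gri_qf T hT, ← hw]
  unfold dotProduct
  have h3 := Finset.sum_mul_sq_le_sq_mul_sq (Finset.univ : Finset α) (T *ᵥ C k) (T *ᵥ w)
  refine h3.trans (le_of_eq ?_)
  congr 1 <;> exact Finset.sum_congr rfl fun a _ => pow_two _

end gram

variable {M D DD : ℕ}

/-! ### the inverse of a triangular chart -/

/-- the inverse of the chart with scales -/
theorem chp_inv {P : Fin M → MvPolynomial (Fin M) ℝ} (tri : ∀ j, ∀ i ∈ (P j).vars, i < j) (d : Fin M → ℝ)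
    (hd : ∀ i, d i ≠ 0) (z : Fin M → ℝ) (j : Fin M) :
    eval (fun i => (d i)⁻¹ * eval z (inv P i)) (chp P d j) = z j := by
  rw [chp_eval]
  have h1 : (fun i => d i * ((d i)⁻¹ * eval z (inv P i))) = fun i => eval z (inv P i) := by
    funext i
    rw [mul_inv_cancel_left₀ (hd i)]
  rw [h1, inv_eval tri z j, mul_inv_cancel_left₀ (hd j)]
  ring

/-- the coefficients of the composed monomials are independent -/
theorem Tm_inj {P : Fin M → MvPolynomial (Fin M) ℝ} (tri : ∀ j, ∀ i ∈ (P j).vars, i < j) (d : Fin M → ℝ)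
    (hd : ∀ i, d i ≠ 0) {p : ℕ} (hP : ∀ i, (P i).totalDegree ≤ p) (hDD : D * (p + 1) ≤ DD) (c : Mon M D → ℝ)
    (hc : Tm DD (chp P d) *ᵥ c = 0) : c = 0 := by
  have h1 : ∀ x : Fin M → ℝ, eval (fun i => eval x (chp P d i)) (pol c) = 0 := by
    intro x
    rw [Pool.Agent.Helper3.LF.eval_pol, ← Tm_vv (D := D) (chp P d) (fun i => chp_deg P d hP i) hDD x,
      Matrix.mulVec_transpose, dotProduct_comm, ← Matrix.dotProduct_mulVec, hc, dotProduct_zero]
  have h2 : pol c = 0 := by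
    apply MvPolynomial.funext
    intro z
    rw [map_zero]
    have h3 := h1 (fun i => (d i)⁻¹ * eval z (inv P i))
    have h4 : (fun j => eval (fun i => (d i)⁻¹ * eval z (inv P i)) (chp P d j)) = z := by
      funext j
      exact chp_inv tri d hd z j
    rwa [h4] at h3
  funext a
  have h5 := coeff_pol c a
  rw [h2, coeff_zero] at h5
  exact h5.symm

/-- the trace of the pull back -/
theorem pbf_trace_le {m : ℕ} (P : Fin m → MvPolynomial (Fin M) ℝ) (r : ℝ) {B : Matrix (Mon m D) (Mon m D) ℝ}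
    (hs : B.IsSymm) (h0 : ∀ x, 0 ≤ x ⬝ᵥ (B *ᵥ x)) : (pbf DD P B).trace ≤ (sbf DD P r B).trace := by
  have h1 : ∀ j : Fin m → Fin (D + 1), 0 ≤ (pbf DD (shP D P r j) B).trace := fun j =>
    trace_nonneg' (pbf_symm _ hs) fun x => by
      rw [pbf_qf]
      exact h0 _
  have h2 : shP D P r (fun _ => 0) = P := by
    funext i
    unfold shP
    have e1 : nod D (0 : Fin (D + 1)) = 0 := by
      unfold nod
      simp
    rw [e1, mul_zero, C_0, add_zero]
  unfold sbf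
  rw [Matrix.trace_sum]
  refine le_trans (le_of_eq ?_) (Finset.single_le_sum (f := fun j : Fin m → Fin (D + 1) =>
    (pbf DD (shP D P r j) B).trace) (fun j _ => h1 j) (Finset.mem_univ (fun _ => 0)))
  show (pbf DD P B).trace = (pbf DD (shP D P r (fun _ => 0)) B).trace
  rw [h2]

/-- the largest form of degree `D` which is tame in the coordinates of the chart -/
def gch (D DD : ℕ) (P : Fin M → MvPolynomial (Fin M) ℝ) (d : Fin M → ℝ) : Matrix (Mon M D) (Mon M D) ℝ :=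
  1 + gri (Tm (D := D) DD (chp P d))

section gch

variable {P : Fin M → MvPolynomial (Fin M) ℝ} (tri : ∀ j, ∀ i ∈ (P j).vars, i < j) (d : Fin M → ℝ)
  (hd : ∀ i, d i ≠ 0) {p : ℕ} (hP : ∀ i, (P i).totalDegree ≤ p) (hDD : D * (p + 1) ≤ DD)

theorem gch_symm (P : Fin M → MvPolynomial (Fin M) ℝ) (d : Fin M → ℝ) : (gch D DD P d).IsSymm :=
  Matrix.isSymm_one.add (gri_symm _)

include tri hd hP hDD

theorem gch_ge (v : Mon M D → ℝ) : v ⬝ᵥ v ≤ v ⬝ᵥ (gch D DD P d *ᵥ v) := by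
  unfold gch
  rw [dv_add, Matrix.one_mulVec]
  have := gri_nonneg _ (Tm_inj tri d hd hP hDD) v
  linarith

/-- domination -/
theorem gch_dom {A : Matrix (Mon M D) (Mon M D) ℝ} (hA : A.IsSymm) (h0 : ∀ x, 0 ≤ x ⬝ᵥ (A *ᵥ x)) (r : ℝ)
    (v : Mon M D → ℝ) : v ⬝ᵥ (A *ᵥ v) ≤ (sbf DD (chp P d) r A).trace * (v ⬝ᵥ (gch D DD P d *ᵥ v)) := by
  have h1 := gri_dom _ (Tm_inj tri d hd hP hDD) hA h0 v
  have h2 : (Tm (D := D) DD (chp P d) * A * (Tm (D := D) DD (chp P d)).transpose).trace ≤ (sbf DD (chp P d) r A).trace :=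
    pbf_trace_le (chp P d) r hA h0
  have h3 := gri_nonneg _ (Tm_inj tri d hd hP hDD) v
  have h4 : v ⬝ᵥ (gri (Tm (D := D) DD (chp P d)) *ᵥ v) ≤ v ⬝ᵥ (gch D DD P d *ᵥ v) := by
    unfold gch
    rw [dv_add, Matrix.one_mulVec]
    have := self_nonneg' v
    linarith
  have h5 : 0 ≤ (sbf DD (chp P d) r A).trace := trace_nonneg' (sbf_symm _ _ hA) fun x => sbf_nonneg _ _ h0 x
  exact h1.trans (mul_le_mul h2 h4 h3 h5)

/-- values at the points of the chart -/
theorem gch_val (x : Fin M → ℝ) : vv (fun i => eval x (chp P d i)) ⬝ᵥ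
    (gch D DD P d *ᵥ vv (fun i => eval x (chp P d i))) ≤
      vv (D := D) (fun i => eval x (chp P d i)) ⬝ᵥ vv (fun i => eval x (chp P d i)) + vv (D := DD) x ⬝ᵥ vv x := by
  have h1 := gri_tr _ (Tm_inj tri d hd hP hDD) (vv (D := DD) x)
  rw [Tm_vv (D := D) (chp P d) (fun i => chp_deg P d hP i) hDD x] at h1
  unfold gch
  rw [dv_add, Matrix.one_mulVec]
  linarith

end gch

theorem vv_self_le (x : Fin M → ℝ) {R : ℝ} (hR : 1 ≤ R) (hx : ∀ i, |x i| ≤ R) :
    vv (D := D) x ⬝ᵥ vv x ≤ Fintype.card (Mon M D) * R ^ (2 * D) := by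
  unfold dotProduct
  refine (Finset.sum_le_card_nsmul _ _ (R ^ (2 * D)) fun a _ => ?_).trans (le_of_eq ?_)
  · have h3 : |vv x a| ≤ R ^ D := by
      rw [vv_apply, Finset.abs_prod]
      calc ∏ i, |x i ^ (a.1 i : ℕ)| ≤ ∏ i, R ^ (a.1 i : ℕ) := by
            refine Finset.prod_le_prod (fun _ _ => abs_nonneg _) fun i _ => ?_
            rw [abs_pow]
            exact pow_le_pow_left₀ (abs_nonneg _) (hx i) _
        _ = R ^ (∑ i, (a.1 i : ℕ)) := by rw [Finset.prod_pow_eq_pow_sum]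
        _ ≤ R ^ D := pow_le_pow_right₀ hR a.2
    calc vv x a * vv x a = |vv x a| ^ 2 := by rw [sq_abs]; ring
      _ ≤ (R ^ D) ^ 2 := pow_le_pow_left₀ (abs_nonneg _) h3 2
      _ = R ^ (2 * D) := by rw [← pow_mul, mul_comm D 2]
  · rw [nsmul_eq_mul, Finset.card_univ]

end

end Pool.Agent.Helper26.BXD
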