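import Pool.Agent.Helper26.BXD.Der
import Pool.Agent.Helper26.CLD.Mn
import Pool.Agent.Helper26.MT.Zo
import Pool.Agent.Helper17.KL.Can
import Pool.Agent.Helper84.MT.Row

/-! NO ALGEBRAIC RELATIONS. If all admissible forms of a class of labels at the point `X` have no gain then every form
which is known to a label of the class and is small AT THE POINT is small: its trace (the size of all its coefficients)
is typically at most `2 ^ (η n)`. In other words: a polynomial of norm one (of any degree) which is known to a label has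
typically a value of at least `2 ^ (-η n)` at the point. -/

set_option autoImplicit false

namespace Pool.Agent.Helper26.BXD

open Finset Filter Topology Matrix Pool.Agent.Helper69.RK Pool.Agent.Helper31.EC Pool.Agent.Helper31.EC.Sp
open Pool.Agent.Helper40.EL Pool.Agent.Helper89.LX Pool.Agent.Helper3.LF Pool.Agent.Helper84.MT
open Pool.Agent.Helper95.LF
open Pool.Agent.Helper3.PR (cutm cutm_cpd cutFD)
open Pool.Agent.Helper14.MC (gx vx vx_UB)
open Pool.Agent.Helper26.CLD (typ_of_mean)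

noncomputable section

variable {S : Sp} {M D : ℕ} {κ : Type}

/-! ### admissible forms from exponential bounds -/

theorem cut_typ_eta {ι : Type} [Fintype ι] [DecidableEq ι] {Φ : Gau S ι} (l : Lab S)
    (g : ∀ k, (l k).T.Ω → Matrix ι ι ℝ)
    (h1 : ∀ᶠ k in UF, ∀ ω, (l k).T.μ ω ≠ 0 → (g k ω).IsSymm ∧ ∀ x, x ⬝ᵥ x ≤ qf (g k ω) x)
    (hT : ∀ η : ℝ, 0 < η → Tendsto (fun k => (l k).T.pb (fun ω =>
      ¬ Φ.φ k ((l k).p.π ω) (g k ω) ≤ 2 ^ (η * (S.F k).n))) UF (𝓝 0)) :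
    Tendsto (fun k => (l k).T.pb (fun ω => ¬ Cpd (Φ.cp k) (g k ω))) UF (𝓝 0) := by
  refine squeeze_zero' (Eventually.of_forall fun k => FSp.pb_nonneg _ _) ?_ (hT 1 one_pos)
  filter_upwards [h1, Φ.cap] with k a b
  apply FSp.pb_mono
  intro ω hω h2 h3
  apply h2
  have hω' := (l k).p.supp ω hω
  obtain ⟨g1, g2⟩ := a ω hω
  refine ⟨g1, g2, fun x => ?_⟩
  refine (b _ hω' _ (pdM_of_one_le g1 g2) x).trans ?_
  apply mul_le_mul_of_nonneg_right _ (dot_self_nonneg x)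
  unfold Gau.cp
  rw [add_mul, Real.rpow_add (by norm_num)]
  exact mul_le_mul_of_nonneg_left h3 (by positivity)

theorem cut_adf_eta {ι : Type} [Fintype ι] [DecidableEq ι] [Finite κ] {Φ : Gau S ι} {A : κ → Part S} (l : Lab S)
    (hl : l.DMf A) (g : ∀ k, (l k).T.Ω → Matrix ι ι ℝ)
    (hm : ∀ k ω ω', (l k).T.μ ω ≠ 0 → (l k).T.μ ω' ≠ 0 → (l k).V ω ω' → (l k).T.Z ω ω' → g k ω = g k ω')
    (h1 : ∀ᶠ k in UF, ∀ ω, (l k).T.μ ω ≠ 0 → (g k ω).IsSymm ∧ ∀ x, x ⬝ᵥ x ≤ qf (g k ω) x)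
    (hT : ∀ η : ℝ, 0 < η → Tendsto (fun k => (l k).T.pb (fun ω =>
      ¬ Φ.φ k ((l k).p.π ω) (g k ω) ≤ 2 ^ (η * (S.F k).n))) UF (𝓝 0)) : Φ.Adf A (cutFD Φ l g hm) := by
  intro η hη
  have hc := cut_typ_eta l g h1 hT
  have h2 := (hT η hη).add hc
  rw [add_zero] at h2
  filter_upwards [leak_evf hl hη, h2.eventually (gt_mem_nhds hη)] with k a b
  have h3 : (cutFD Φ l g hm k).l.T.pb (fun ω => ¬ Φ.φ k ((cutFD Φ l g hm k).l.p.π ω) ((cutFD Φ l g hm k).g ω) ≤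
      2 ^ (η * (S.F k).n)) ≤ η := by
    refine le_trans (le_trans (FSp.pb_mono (l k).T (E' := fun ω => (¬ Φ.φ k ((l k).p.π ω) (g k ω) ≤
      2 ^ (η * (S.F k).n)) ∨ ¬ Cpd (Φ.cp k) (g k ω)) ?_) (pb_or _ _ _)) b.le
    intro ω _ h4
    by_contra h5
    rw [not_or, not_not, not_not] at h5
    apply h4
    show Φ.φ k _ (cutm (Φ.cp k) (g k ω)) ≤ _
    rw [cutm_pos h5.2]
    exact h5.1
  exact ⟨a, fun ω _ => ⟨cutm_cpd (Φ.one_le_cp k) _, cutm_cpd (Φ.one_le_cp k) _⟩, h3, h3⟩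

theorem single_sq (i : Fin M) : (Pi.single i (1 : ℝ) : Fin M → ℝ) ⬝ᵥ Pi.single i 1 = 1 := by
  rw [single_one_dotProduct, Pi.single_eq_same]

/-! ### no gain -/

/-- NO GAIN: all admissible forms of the class `C` at the point `X` for the conditions `A` have full volume -/
def NG (C : LC S) (X : S.VV M) (A : κ → Part S) : Prop :=
  ∀ (D : ℕ) (y : ∀ k, FD (S.F k) (Mon M D)), (gaq X D).AdfK C A y → ul (vx X y) ≤ 0

/-- forms without gain have typically no exponents -/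
theorem NG.typ {C : LC S} {X : S.VV M} {A : κ → Part S} (hN : NG C X A) {y : ∀ k, FD (S.F k) (Mon M D)}
    (hy : (gaq X D).AdfK C A y) (e : ℝ) (he : 0 < e) :
    Tendsto (fun k => (y k).l.T.pb (fun ω => ¬ gx X k ((y k).l.p.π ω) ((y k).g ω) ≤ e)) UF (𝓝 0) := by
  obtain ⟨K, hK0, hK⟩ := gx_bd hy.1
  have h0 : ∀ᶠ k in UF, ∀ ω, (y k).l.T.μ ω ≠ 0 → 0 ≤ gx X k ((y k).l.p.π ω) ((y k).g ω) :=
    hK.mono fun k hk ω hω => (hk ω hω).1
  have h1 := typ_of_mean (fun k => (y k).l.T) (fun k ω => gx X k ((y k).l.p.π ω) ((y k).g ω)) (a := 0) h0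
    (vx_UB hy.1) (hN D y hy) (fun e' he' => by
      refine squeeze_zero' (Eventually.of_forall fun k => FSp.pb_nonneg _ _) ?_ tendsto_const_nhds
      filter_upwards [h0] with k hk
      have h2 : (y k).l.T.pb (fun _ => False) = 0 := by
        unfold FSp.pb mass
        apply Finset.sum_eq_zero
        intro ω _
        exact res_neg _ _ _ not_false
      rw [← h2]
      apply FSp.pb_mono
      intro ω hω h3
      apply h3
      have := hk ω hω
      linarith) e he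
  rwa [zero_add] at h1

/-- forms known to a label -/
structure Fm (l : Lab S) (M D : ℕ) where
  g : ∀ k, (l k).T.Ω → Matrix (Mon M D) (Mon M D) ℝ
  ms : ∀ k ω ω', (l k).T.μ ω ≠ 0 → (l k).T.μ ω' ≠ 0 → (l k).V ω ω' → (l k).T.Z ω ω' → g k ω = g k ω'
  sy : ∀ k ω, (g k ω).IsSymm
  nn : ∀ k ω x, 0 ≤ x ⬝ᵥ (g k ω *ᵥ x)

/-- the form of the derivatives -/
def Fm.d {l : Lab S} (i : Fin M) (G : Fm l M D) : Fm l M D where
  g := fun k ω => dM i (G.g k ω)
  ms := fun k ω ω' a b c d => by rw [G.ms k ω ω' a b c d]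
  sy := fun k ω => dM_symm i (G.sy k ω)
  nn := fun k ω => dM_nonneg i (G.nn k ω)

/-- the sizes of a form are at most `2 ^ (-σ n)` -/
def PV {l : Lab S} (X : S.VV M) (G : ∀ k, (l k).T.Ω → Matrix (Mon M D) (Mon M D) ℝ) (σ : ℝ) : Prop :=
  ∀ η : ℝ, 0 < η → Tendsto (fun k => (l k).T.pb (fun ω =>
    ¬ phi (S.dl 1 k) (G k ω) (X.v k ((l k).p.π ω)) ≤ 2 ^ ((η - σ) * (S.F k).n))) UF (𝓝 0)

variable {C : LC S} {X : S.VV M} {A : κ → Part S} {l : Lab S}

/-- ONE STEP: the derivatives of a small form are small, with the same exponent -/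
theorem PV.step [Finite κ] (hN : NG C X A) (hl : l.DMf A) (hC : C.ev l) (G : Fm l M D) {σ : ℝ} (h : PV X G.g σ)
    (i : Fin M) : PV X (G.d i).g σ := by
  have hm : ∀ k ω ω', (l k).T.μ ω ≠ 0 → (l k).T.μ ω' ≠ 0 → (l k).V ω ω' → (l k).T.Z ω ω' →
      (1 + (2 : ℝ) ^ (σ * (S.F k).n) • G.g k ω : Matrix (Mon M D) (Mon M D) ℝ) =
        1 + (2 : ℝ) ^ (σ * (S.F k).n) • G.g k ω' := fun k ω ω' a b c d => by rw [G.ms k ω ω' a b c d]
  have hsc0 : ∀ k ω (x : Mon M D → ℝ), 0 ≤ x ⬝ᵥ (((2 : ℝ) ^ (σ * (S.F k).n) • G.g k ω) *ᵥ x) := fun k ω x => by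
    rw [dv_smul]
    exact mul_nonneg (by positivity) (G.nn k ω x)
  have h1 : ∀ k ω, (1 + (2 : ℝ) ^ (σ * (S.F k).n) • G.g k ω : Matrix (Mon M D) (Mon M D) ℝ).IsSymm ∧
      ∀ x, x ⬝ᵥ x ≤ qf (1 + (2 : ℝ) ^ (σ * (S.F k).n) • G.g k ω : Matrix (Mon M D) (Mon M D) ℝ) x := fun k ω => by
    refine ⟨Matrix.isSymm_one.add ((G.sy k ω).smul _), fun x => ?_⟩
    rw [qf_add, qf_one']
    have := hsc0 k ω x
    show x ⬝ᵥ x ≤ x ⬝ᵥ x + x ⬝ᵥ (((2 : ℝ) ^ (σ * (S.F k).n) • G.g k ω) *ᵥ x)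
    linarith
  obtain ⟨K, hK, hone⟩ := (gaq X D).one
  have hT : ∀ η : ℝ, 0 < η → Tendsto (fun k => (l k).T.pb (fun ω => ¬ (gaq X D).φ k ((l k).p.π ω)
      (1 + (2 : ℝ) ^ (σ * (S.F k).n) • G.g k ω) ≤ 2 ^ (η * (S.F k).n))) UF (𝓝 0) := by
    intro η hη
    have hη4 : 0 < η / 4 := by linarith
    refine squeeze_zero' (Eventually.of_forall fun k => FSp.pb_nonneg _ _) ?_ (h (η / 4) hη4)
    filter_upwards [hone, hK.eventually_le hη4, S.lim.eventually (eventually_ge_atTop (4 / η : ℝ))] with k a b c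
    apply FSp.pb_mono
    intro ω hω h2 h3
    apply h2
    rw [(gaq X D).add]
    have h4 := a _ ((l k).p.supp ω hω)
    have h5 : (gaq X D).φ k ((l k).p.π ω) ((2 : ℝ) ^ (σ * (S.F k).n) • G.g k ω) =
        (2 : ℝ) ^ (σ * (S.F k).n) * phi (S.dl 1 k) (G.g k ω) (X.v k ((l k).p.π ω)) := phi_smul _ _ _ _
    rw [h5]
    have h6 : (2 : ℝ) ^ (σ * (S.F k).n) * phi (S.dl 1 k) (G.g k ω) (X.v k ((l k).p.π ω)) ≤
        2 ^ (η / 4 * (S.F k).n) := by
      refine (mul_le_mul_of_nonneg_left h3 (by positivity)).trans (le_of_eq ?_)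
      rw [← Real.rpow_add (by norm_num)]
      congr 1
      ring
    have hn := (S.F k).pos
    have h7 : (2 : ℝ) ^ (η / 4 * (S.F k).n) * 2 ≤ 2 ^ (η * (S.F k).n) := by
      rw [← Real.rpow_add_one (by norm_num)]
      apply Real.rpow_le_rpow_of_exponent_le (by norm_num)
      rw [div_le_iff₀ hη] at c
      nlinarith
    linarith
  have hy := cut_adf_eta (Φ := gaq X D) l hl _ hm (Eventually.of_forall fun k ω _ => h1 k ω) hT
  have hyK : (gaq X D).AdfK C A (cutFD (gaq X D) l _ hm) := ⟨hy, hC⟩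
  have hcp := cut_typ_eta (Φ := gaq X D) l _ (Eventually.of_forall fun k ω _ => h1 k ω) hT
  intro η hη
  have h2 := (hN.typ hyK (η / 2) (by linarith)).add hcp
  rw [add_zero] at h2
  refine squeeze_zero' (Eventually.of_forall fun k => FSp.pb_nonneg _ _) (Eventually.of_forall fun k => ?_) h2
  refine le_trans (FSp.pb_mono (l k).T (E' := fun ω => (¬ gx X k ((l k).p.π ω) (cutm ((gaq X D).cp k)
    (1 + (2 : ℝ) ^ (σ * (S.F k).n) • G.g k ω)) ≤ η / 2) ∨ ¬ Cpd ((gaq X D).cp k)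
    (1 + (2 : ℝ) ^ (σ * (S.F k).n) • G.g k ω)) ?_) (pb_or _ _ _)
  intro ω hω h3
  by_contra h4
  rw [not_or, not_not, not_not] at h4
  obtain ⟨h5, h6⟩ := h4
  rw [cutm_pos h6] at h5
  apply h3
  have hn := (S.F k).pos
  unfold gx at h5
  obtain ⟨s1, s2⟩ := h1 k ω
  have s3 : ∀ x : Mon M D → ℝ, 0 ≤ x ⬝ᵥ ((1 + (2 : ℝ) ^ (σ * (S.F k).n) • G.g k ω) *ᵥ x) := fun x =>
    (self_nonneg' x).trans (s2 x)
  have hG1 := one_le_GQ (S.dl 1 k) s1 s3 (X.v k ((l k).p.π ω))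
  rw [div_le_iff₀ (by positivity), Real.logb_le_iff_le_rpow (by norm_num) (by linarith)] at h5
  have e1 : η / 2 * (2 * (S.F k).n) = η * (S.F k).n := by ring
  rw [e1] at h5
  have hJ := Jq_mono (S.dl 1 k) (A := (2 : ℝ) ^ (σ * (S.F k).n) • G.g k ω)
    (B := 1 + (2 : ℝ) ^ (σ * (S.F k).n) • G.g k ω) (fun x => by
      rw [dv_add, Matrix.one_mulVec]
      have := self_nonneg' x
      linarith) (X.v k ((l k).p.π ω)) (Pi.single i 1)
  rw [← phi_dM_Jq, dM_smul, phi_smul] at hJ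
  have hd := det_ge_one_add (1 + Jq (S.dl 1 k) (1 + (2 : ℝ) ^ (σ * (S.F k).n) • G.g k ω) (X.v k ((l k).p.π ω)))
    (one_Jq_symm _ s1 _) (one_Jq_ge _ s3 _) (Pi.single i 1) (by
      intro h0
      have := congrFun h0 i
      rw [Pi.single_eq_same] at this
      exact one_ne_zero this)
    (1 + (Pi.single i (1 : ℝ) : Fin M → ℝ) ⬝ᵥ (Jq (S.dl 1 k) (1 + (2 : ℝ) ^ (σ * (S.F k).n) • G.g k ω)
      (X.v k ((l k).p.π ω)) *ᵥ (Pi.single i (1 : ℝ)))) (by
      rw [dv_add, one_dv, single_sq, mul_one])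
  have hd' : 1 + (Pi.single i (1 : ℝ) : Fin M → ℝ) ⬝ᵥ (Jq (S.dl 1 k) (1 + (2 : ℝ) ^ (σ * (S.F k).n) • G.g k ω)
      (X.v k ((l k).p.π ω)) *ᵥ (Pi.single i (1 : ℝ))) ≤ 2 ^ (η * (S.F k).n) := hd.trans h5
  have h7 : (2 : ℝ) ^ (σ * (S.F k).n) * phi (S.dl 1 k) (dM i (G.g k ω)) (X.v k ((l k).p.π ω)) ≤
      2 ^ (η * (S.F k).n) := by linarith
  show phi (S.dl 1 k) (dM i (G.g k ω)) (X.v k ((l k).p.π ω)) ≤ _
  rw [sub_mul, Real.rpow_sub (by norm_num), le_div_iff₀ (by positivity), mul_comm]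
  exact h7

/-- all derivatives -/
theorem PV.steps [Finite κ] (hN : NG C X A) (hl : l.DMf A) (hC : C.ev l) {σ : ℝ} (L : List (Fin M)) :
    ∀ (G : Fm l M D), PV X G.g σ → PV X (fun k ω => dL L (G.g k ω)) σ := by
  induction L with
  | nil => exact fun G h => h
  | cons i L ih => exact fun G h => ih (G.d i) (PV.step hN hl hC G h i)

/-- finitely many typical events -/
theorem typ_finset (F : ℕ → FSp) {β : Type} (B : Finset β) (E : β → ∀ k, (F k).Ω → Prop)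
    (h : ∀ b ∈ B, Tendsto (fun k => (F k).pb (fun ω => ¬ E b k ω)) UF (𝓝 0)) :
    Tendsto (fun k => (F k).pb (fun ω => ¬ ∀ b ∈ B, E b k ω)) UF (𝓝 0) := by
  classical
  induction B using Finset.induction_on with
  | empty =>
    refine squeeze_zero' (Eventually.of_forall fun k => FSp.pb_nonneg _ _) (Eventually.of_forall fun k => ?_)
      tendsto_const_nhds
    have h2 : (F k).pb (fun _ => False) = 0 := by
      unfold FSp.pb mass
      apply Finset.sum_eq_zero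
      intro ω _
      exact res_neg _ _ _ not_false
    rw [← h2]
    apply FSp.pb_mono
    intro ω _ h3
    exact h3 fun b hb => absurd hb (Finset.notMem_empty b)
  | insert b B hb ih =>
    have h1 := (h b (Finset.mem_insert_self b B)).add (ih fun b' hb' => h b' (Finset.mem_insert_of_mem hb'))
    rw [add_zero] at h1
    refine squeeze_zero' (Eventually.of_forall fun k => FSp.pb_nonneg _ _) (Eventually.of_forall fun k => ?_) h1
    refine le_trans (FSp.pb_mono _ (E' := fun ω => (¬ E b k ω) ∨ ¬ ∀ b ∈ B, E b k ω) ?_) (pb_or _ _ _)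
    intro ω _ h3
    by_contra h4
    rw [not_or, not_not, not_not] at h4
    apply h3
    intro b' hb'
    rcases Finset.mem_insert.1 hb' with rfl | h5
    · exact h4.1
    · exact h4.2 b' h5

theorem vv_le_phi {r : ℝ} {A : Matrix (Mon M D) (Mon M D) ℝ} (h0 : ∀ v, 0 ≤ v ⬝ᵥ (A *ᵥ v)) (x : Fin M → ℝ) :
    vv x ⬝ᵥ (A *ᵥ vv x) ≤ phi r A x := by
  unfold phi
  refine le_trans (le_of_eq ?_) (Finset.single_le_sum (f := fun j : Fin M → Fin (D + 1) =>
    vv (D := D) (nodp D x r j) ⬝ᵥ (A *ᵥ vv (nodp D x r j))) (fun j _ => h0 _) (Finset.mem_univ (fun _ => 0)))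
  have e1 : nodp D x r (fun _ => 0) = x := Pool.Agent.Helper7.GZ.nodp_zero' x r
  show _ = vv (D := D) (nodp D x r (fun _ => 0)) ⬝ᵥ (A *ᵥ vv (nodp D x r (fun _ => 0)))
  rw [e1]

theorem dL_nonneg : ∀ (L : List (Fin M)) {A : Matrix (Mon M D) (Mon M D) ℝ}, (∀ v, 0 ≤ v ⬝ᵥ (A *ᵥ v)) →
    ∀ v, 0 ≤ v ⬝ᵥ (dL L A *ᵥ v)
  | [], _, h => h
  | i :: L, _, h => dL_nonneg L (dM_nonneg i h)

/-- the form divided by its trace, zero if the trace is less than `t` -/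
def nrm (t : ℝ) (A : Matrix (Mon M D) (Mon M D) ℝ) : Matrix (Mon M D) (Mon M D) ℝ := by
  classical exact if t ≤ A.trace then (A.trace)⁻¹ • A else 0

theorem nrm_symm {t : ℝ} {A : Matrix (Mon M D) (Mon M D) ℝ} (hA : A.IsSymm) : (nrm t A).IsSymm := by
  unfold nrm
  split_ifs
  · exact hA.smul _
  · exact Matrix.isSymm_zero

theorem nrm_nonneg {t : ℝ} (ht : 0 ≤ t) {A : Matrix (Mon M D) (Mon M D) ℝ} (h0 : ∀ v, 0 ≤ v ⬝ᵥ (A *ᵥ v))
    (v : Mon M D → ℝ) : 0 ≤ v ⬝ᵥ (nrm t A *ᵥ v) := by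
  unfold nrm
  split_ifs with h
  · rw [dv_smul]
    exact mul_nonneg (inv_nonneg.2 (ht.trans h)) (h0 v)
  · rw [Matrix.zero_mulVec, dotProduct_zero]

theorem nrm_trace {t : ℝ} (ht : 0 < t) (A : Matrix (Mon M D) (Mon M D) ℝ) : (nrm t A).trace ≤ 1 := by
  unfold nrm
  split_ifs with h
  · rw [Matrix.trace_smul, smul_eq_mul, inv_mul_cancel₀ (ht.trans_le h).ne']
  · rw [Matrix.trace_zero]
    exact zero_le_one

theorem nrm_trace_eq {t : ℝ} (ht : 0 < t) {A : Matrix (Mon M D) (Mon M D) ℝ} (h : t ≤ A.trace) :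
    (nrm t A).trace = 1 := by
  unfold nrm
  rw [if_pos h, Matrix.trace_smul, smul_eq_mul, inv_mul_cancel₀ (ht.trans_le h).ne']

theorem nrm_val {t : ℝ} (ht : 0 < t) {A : Matrix (Mon M D) (Mon M D) ℝ} (v : Mon M D → ℝ) {c : ℝ} (hc : 0 ≤ c)
    (h : v ⬝ᵥ (A *ᵥ v) ≤ c) : v ⬝ᵥ (nrm t A *ᵥ v) ≤ c / t := by
  unfold nrm
  split_ifs with h1
  · have h2 : 0 < A.trace := ht.trans_le h1
    rw [dv_smul, inv_mul_eq_div, div_le_div_iff₀ h2 ht]
    calc v ⬝ᵥ (A *ᵥ v) * t ≤ c * t := mul_le_mul_of_nonneg_right h ht.le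
      _ ≤ c * A.trace := mul_le_mul_of_nonneg_left h1 hc
  · rw [Matrix.zero_mulVec, dotProduct_zero]
    positivity

theorem cL_nonneg (M D : ℕ) (K : ℝ) : 0 ≤ cL M D K := by
  unfold cL
  positivity

/-- subexponential sequences: `cL` -/
theorem Sub_cL {K : ℕ → ℝ} (hK : S.Sub K) : S.Sub (fun k => cL M D (K k)) := by
  unfold cL
  exact (S.Sub_const (Nat.cast_nonneg _)).mul (Sub_pow' ((S.Sub_const (Nat.cast_nonneg _)).mul
    ((S.Sub_const (by positivity)).mul ((S.Sub_const zero_le_one).mul ((S.Sub_const (Nat.cast_nonneg _)).mul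
      (Sub_pow' (hK.add (S.Sub_const zero_le_one)) D))))) 2)

/-- NO ALGEBRAIC RELATIONS -/
theorem noalg [Finite κ] (hN : NG C X A) (hl : l.DMf A) (hC : C.ev l) (G : Fm l M D)
    (hv : ∀ η : ℝ, 0 < η → Tendsto (fun k => (l k).T.pb (fun ω =>
      ¬ vv (X.v k ((l k).p.π ω)) ⬝ᵥ (G.g k ω *ᵥ vv (X.v k ((l k).p.π ω))) ≤ 2 ^ (η * (S.F k).n))) UF (𝓝 0))
    (δ : ℝ) (hδ : 0 < δ) :
    Tendsto (fun k => (l k).T.pb (fun ω => ¬ (G.g k ω).trace ≤ 2 ^ (δ * (S.F k).n))) UF (𝓝 0) := by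
  classical
  wlog h1 : δ ≤ 1 with H
  · refine squeeze_zero' (Eventually.of_forall fun k => FSp.pb_nonneg _ _) (Eventually.of_forall fun k => ?_)
      (H hN hl hC G hv 1 one_pos le_rfl)
    apply FSp.pb_mono
    intro ω _ h2 h3
    apply h2
    refine h3.trans (Real.rpow_le_rpow_of_exponent_le (by norm_num) ?_)
    exact mul_le_mul_of_nonneg_right (not_le.1 h1).le (S.F k).pos.le
  obtain ⟨Kx, hKx, hX⟩ := X.bd
  obtain ⟨B, hB1, hB⟩ := exists_trace_bd M D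
  have ht : ∀ k, (0 : ℝ) < 2 ^ (δ * (S.F k).n) := fun k => by positivity
  obtain ⟨G0, hG0⟩ : ∃ G0 : Fm l M D, ∀ k ω, G0.g k ω = nrm (2 ^ (δ * (S.F k).n)) (G.g k ω) :=
    ⟨⟨fun k ω => nrm (2 ^ (δ * (S.F k).n)) (G.g k ω), fun k ω ω' a b c d => by rw [G.ms k ω ω' a b c d],
      fun k ω => nrm_symm (G.sy k ω), fun k ω => nrm_nonneg (ht k).le (G.nn k ω)⟩, fun _ _ => rfl⟩
  have hnn := nn_one M D
  have hS : S.Sub (fun k => nn M D * 2 + nn M D * (2 * cL M D (Kx k))) :=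
    (S.Sub_const (by positivity)).add ((S.Sub_const (by positivity)).mul ((S.Sub_const (by norm_num)).mul (Sub_cL hKx)))
  have hP : PV X G0.g δ := by
    intro η hη
    have hη2 : 0 < η / 2 := by linarith
    refine squeeze_zero' (Eventually.of_forall fun k => FSp.pb_nonneg _ _) ?_ (hv (η / 2) hη2)
    filter_upwards [hX, hKx.1, hS.eventually_le hη2] with k a b c
    apply FSp.pb_mono
    intro ω hω h2 h3
    apply h2
    have hω' := (l k).p.supp ω hω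
    have hn := (S.F k).pos
    have hr0 := (S.dl_pos 1 k).le
    have hr1 : S.dl 1 k ≤ 1 := (S.dl_anti zero_le_one k).trans_eq (S.dl_zero k)
    have hcL := cL_nonneg M D (Kx k)
    rw [hG0]
    refine (phi_near (nrm_symm (G.sy k ω)) (nrm_nonneg (ht k).le (G.nn k ω)) (X.v k ((l k).p.π ω)) b
      (a _ hω') hr0 hr1).trans ?_
    have h4 : vv (X.v k ((l k).p.π ω)) ⬝ᵥ (nrm (2 ^ (δ * (S.F k).n)) (G.g k ω) *ᵥ vv (X.v k ((l k).p.π ω))) ≤
        2 ^ ((η / 2 - δ) * (S.F k).n) := by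
      refine (nrm_val (ht k) _ (by positivity) h3).trans (le_of_eq ?_)
      rw [← Real.rpow_sub (by norm_num)]
      congr 1
      ring
    have h5 : (nrm (2 ^ (δ * (S.F k).n)) (G.g k ω)).trace * (cL M D (Kx k) * S.dl 1 k ^ 2) ≤
        cL M D (Kx k) * 2 ^ ((η / 2 - δ) * (S.F k).n) := by
      have e2 : S.dl 1 k ^ 2 ≤ 2 ^ ((η / 2 - δ) * (S.F k).n) := by
        have e3 : S.dl 1 k ^ 2 = 2 ^ (-2 * (S.F k).n) := by
          unfold Sp.dl
          rw [← Real.rpow_natCast, ← Real.rpow_mul (by norm_num)]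
          congr 1
          push_cast
          ring
        rw [e3]
        apply Real.rpow_le_rpow_of_exponent_le (by norm_num)
        nlinarith
      calc (nrm (2 ^ (δ * (S.F k).n)) (G.g k ω)).trace * (cL M D (Kx k) * S.dl 1 k ^ 2) ≤
          1 * (cL M D (Kx k) * S.dl 1 k ^ 2) :=
            mul_le_mul_of_nonneg_right (nrm_trace (ht k) _) (by positivity)
        _ ≤ cL M D (Kx k) * 2 ^ ((η / 2 - δ) * (S.F k).n) := by
            rw [one_mul]
            exact mul_le_mul_of_nonneg_left e2 hcL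
    have h6 : nn M D * (2 * (vv (X.v k ((l k).p.π ω)) ⬝ᵥ (nrm (2 ^ (δ * (S.F k).n)) (G.g k ω) *ᵥ
        vv (X.v k ((l k).p.π ω)))) + 2 * ((nrm (2 ^ (δ * (S.F k).n)) (G.g k ω)).trace *
          (cL M D (Kx k) * S.dl 1 k ^ 2))) ≤
        nn M D * (2 * 2 ^ ((η / 2 - δ) * (S.F k).n) + 2 * (cL M D (Kx k) * 2 ^ ((η / 2 - δ) * (S.F k).n))) := by
      apply mul_le_mul_of_nonneg_left _ (by linarith)
      linarith
    refine h6.trans ?_
    have h7 : nn M D * (2 * 2 ^ ((η / 2 - δ) * (S.F k).n) + 2 * (cL M D (Kx k) * 2 ^ ((η / 2 - δ) * (S.F k).n))) =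
        (nn M D * 2 + nn M D * (2 * cL M D (Kx k))) * 2 ^ ((η / 2 - δ) * (S.F k).n) := by ring
    rw [h7]
    calc (nn M D * 2 + nn M D * (2 * cL M D (Kx k))) * 2 ^ ((η / 2 - δ) * (S.F k).n) ≤
        2 ^ (η / 2 * (S.F k).n) * 2 ^ ((η / 2 - δ) * (S.F k).n) :=
          mul_le_mul_of_nonneg_right (by linarith) (by positivity)
      _ = 2 ^ ((η - δ) * (S.F k).n) := by
          rw [← Real.rpow_add (by norm_num)]
          congr 1
          ring
  have hfin : {L : List (Fin M) | L.length ≤ D}.Finite := List.finite_length_le (Fin M) D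
  have hδ4 : 0 < δ / 4 := by linarith
  have hall := typ_finset (fun k => (l k).T) hfin.toFinset (fun L k ω =>
    phi (S.dl 1 k) (dL L (G0.g k ω)) (X.v k ((l k).p.π ω)) ≤ 2 ^ ((δ / 4 - δ) * (S.F k).n))
    (fun L _ => PV.steps hN hl hC L G0 hP (δ / 4) hδ4)
  have hS2 : S.Sub (fun k => B * ((1 + M * (Kx k + 1)) ^ D) ^ 2) :=
    (S.Sub_const (by linarith)).mul (Sub_pow' (Sub_pow' ((S.Sub_const zero_le_one).add
      ((S.Sub_const (Nat.cast_nonneg _)).mul (hKx.add (S.Sub_const zero_le_one)))) D) 2)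
  refine squeeze_zero' (Eventually.of_forall fun k => FSp.pb_nonneg _ _) ?_ hall
  filter_upwards [hX, hKx.1, hS2.eventually_le hδ4] with k a b c
  apply FSp.pb_mono
  intro ω hω h2 h3
  apply h2
  by_contra h4
  rw [not_le] at h4
  have hω' := (l k).p.supp ω hω
  have hn := (S.F k).pos
  have h5 : (G0.g k ω).trace = 1 := by
    rw [hG0]
    exact nrm_trace_eq (ht k) h4.le
  have h6 := hB (G0.g k ω) (G0.sy k ω) (G0.nn k ω) (X.v k ((l k).p.π ω)) (Kx k) (2 ^ ((δ / 4 - δ) * (S.F k).n)) b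
    (a _ hω') (by positivity) (fun L hL => (vv_le_phi (dL_nonneg L (G0.nn k ω)) _).trans
      (h3 L (hfin.mem_toFinset.2 hL)))
  rw [h5] at h6
  have h7 : B * ((1 + M * (Kx k + 1)) ^ D) ^ 2 * 2 ^ ((δ / 4 - δ) * (S.F k).n) ≤
      2 ^ (δ / 4 * (S.F k).n) * 2 ^ ((δ / 4 - δ) * (S.F k).n) :=
    mul_le_mul_of_nonneg_right (by linarith) (by positivity)
  rw [← Real.rpow_add (by norm_num)] at h7
  have h8 : (2 : ℝ) ^ (δ / 4 * (S.F k).n + (δ / 4 - δ) * (S.F k).n) < 1 := by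
    apply Real.rpow_lt_one_of_one_lt_of_neg (by norm_num)
    nlinarith
  linarith

end

end Pool.Agent.Helper26.BXD
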