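import Pool.Agent.Helper26.BXD.Noa
import Pool.Agent.Helper89.RAK.Kz

/-! NO SMALL VALUES: if all admissible forms of a class of labels at the point `X` have no gain then every form which is
known to a label of the class has typically at the point a value of at least `2 ^ (-η n)` times its trace. -/

set_option autoImplicit false

namespace Pool.Agent.Helper26.BXD

open Finset Filter Topology Matrix Pool.Agent.Helper69.RK Pool.Agent.Helper31.EC Pool.Agent.Helper31.EC.Sp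
open Pool.Agent.Helper40.EL Pool.Agent.Helper89.LX Pool.Agent.Helper3.LF Pool.Agent.Helper84.MT
open Pool.Agent.Helper95.LF

noncomputable section

variable {S : Sp} {M D : ℕ} {κ : Type} {C : LC S} {X : S.VV M} {A : κ → Part S} {l : Lab S}

/-- the form multiplied by a factor which is a function of the index -/
def Fm.bit (G : Fm l M D) (b : ∀ k, (l k).T.Ω → Bool) (t : ℕ → ℝ) (ht : ∀ k, 0 ≤ t k) : Fm (ixl l b) M D where
  g := fun k ω => if b k ω = true then (t k * ((G.g k ω).trace)⁻¹) • G.g k ω else 0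
  ms := fun k (ω : (l k).T.Ω) (ω' : (l k).T.Ω) a a' hV hZ => by
    have h1 : b k ω = b k ω' := hV.2
    have h2 : G.g k ω = G.g k ω' := G.ms k ω ω' a a' hV.1 hZ
    rw [h1, h2]
  sy := fun k (ω : (l k).T.Ω) => by
    split_ifs
    · exact (G.sy k ω).smul _
    · exact Matrix.isSymm_zero
  nn := fun k (ω : (l k).T.Ω) x => by
    split_ifs
    · rw [dv_smul]
      exact mul_nonneg (mul_nonneg (ht k) (inv_nonneg.2 (trace_nonneg' (G.sy k ω) (G.nn k ω)))) (G.nn k ω x)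
    · rw [Matrix.zero_mulVec, dotProduct_zero]

/-- NO SMALL VALUES -/
theorem nsv [Finite κ] (hN : NG C X A) (hl : l.DMf A) (G : Fm l M D)
    (hC : ∀ b : ∀ k, (l k).T.Ω → Bool, (∀ k ω ω', (l k).T.μ ω ≠ 0 → (l k).T.μ ω' ≠ 0 → (l k).V ω ω' → (l k).T.Z ω ω' →
      X.v k ((l k).p.π ω) = X.v k ((l k).p.π ω') → b k ω = b k ω') → C.ev (ixl l b)) (η : ℝ) (hη : 0 < η) :
    Tendsto (fun k => (l k).T.pb (fun ω => ¬ (G.g k ω).trace ≤ 2 ^ (η * (S.F k).n) *
      (vv (X.v k ((l k).p.π ω)) ⬝ᵥ (G.g k ω *ᵥ vv (X.v k ((l k).p.π ω)))))) UF (𝓝 0) := by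
  classical
  obtain ⟨b, hb⟩ : ∃ b : ∀ k, (l k).T.Ω → Bool, ∀ k ω, b k ω = true ↔ (l k).T.μ ω ≠ 0 ∧
      ¬ (G.g k ω).trace ≤ 2 ^ (η * (S.F k).n) *
        (vv (X.v k ((l k).p.π ω)) ⬝ᵥ (G.g k ω *ᵥ vv (X.v k ((l k).p.π ω)))) :=
    ⟨fun k ω => decide ((l k).T.μ ω ≠ 0 ∧ ¬ (G.g k ω).trace ≤ 2 ^ (η * (S.F k).n) *
        (vv (X.v k ((l k).p.π ω)) ⬝ᵥ (G.g k ω *ᵥ vv (X.v k ((l k).p.π ω))))), fun k ω => decide_eq_true_iff⟩
  have hCb := hC b (fun k ω ω' a a' hV hZ hX => by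
    rw [Bool.eq_iff_iff, hb, hb, G.ms k ω ω' a a' hV hZ, hX]
    exact ⟨fun h => ⟨a', h.2⟩, fun h => ⟨a, h.2⟩⟩)
  have key := noalg (l := ixl l b) hN (ixl_DMf hl b) hCb (G.bit b (fun k => 2 ^ (η * (S.F k).n)) fun k => by positivity)
    (fun η' hη' => by
      refine squeeze_zero' (Eventually.of_forall fun k => FSp.pb_nonneg _ _) (Eventually.of_forall fun k => ?_)
        tendsto_const_nhds
      have h2 : (ixl l b k).T.pb (fun _ => False) = 0 := by
        unfold FSp.pb mass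
        apply Finset.sum_eq_zero
        intro ω _
        exact res_neg _ _ _ not_false
      refine le_trans (FSp.pb_mono _ (E' := fun _ => False) ?_) h2.le
      intro (ω : (l k).T.Ω) hω h3
      apply h3
      show vv (X.v k ((l k).p.π ω)) ⬝ᵥ ((if b k ω = true then ((2 : ℝ) ^ (η * (S.F k).n) * ((G.g k ω).trace)⁻¹) •
        G.g k ω else 0) *ᵥ vv (X.v k ((l k).p.π ω))) ≤ 2 ^ (η' * (S.F k).n)
      have hn := (S.F k).pos
      have h5 : (1 : ℝ) ≤ 2 ^ (η' * (S.F k).n) := Real.one_le_rpow (by norm_num) (by positivity)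
      split_ifs with h4
      · have h6 := ((hb k ω).1 h4).2
        rw [not_le] at h6
        have h7 := G.nn k ω (vv (X.v k ((l k).p.π ω)))
        have h8 : 0 < (G.g k ω).trace := lt_of_le_of_lt (by positivity) h6
        rw [dv_smul]
        refine le_trans ?_ h5
        have e1 : (2 : ℝ) ^ (η * (S.F k).n) * ((G.g k ω).trace)⁻¹ *
            (vv (X.v k ((l k).p.π ω)) ⬝ᵥ (G.g k ω *ᵥ vv (X.v k ((l k).p.π ω)))) =
            ((2 : ℝ) ^ (η * (S.F k).n) * (vv (X.v k ((l k).p.π ω)) ⬝ᵥ (G.g k ω *ᵥ vv (X.v k ((l k).p.π ω))))) /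
              (G.g k ω).trace := by
          rw [div_eq_mul_inv]
          ring
        rw [e1, div_le_one h8]
        exact h6.le
      · rw [Matrix.zero_mulVec, dotProduct_zero]
        positivity) (η / 2) (by linarith)
  refine squeeze_zero' (Eventually.of_forall fun k => FSp.pb_nonneg _ _) (Eventually.of_forall fun k => ?_) key
  apply FSp.pb_mono
  intro ω hω h3 h4
  have h5 : b k ω = true := (hb k ω).2 ⟨hω, h3⟩
  have h6 : (if b k ω = true then ((2 : ℝ) ^ (η * (S.F k).n) * ((G.g k ω).trace)⁻¹) • G.g k ω else 0 :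
    Matrix (Mon M D) (Mon M D) ℝ).trace ≤ 2 ^ (η / 2 * (S.F k).n) := h4
  rw [if_pos h5, Matrix.trace_smul, smul_eq_mul] at h6
  have h7 := ((hb k ω).1 h5).2
  rw [not_le] at h7
  have h8 := G.nn k ω (vv (X.v k ((l k).p.π ω)))
  have h9 : 0 < (G.g k ω).trace := lt_of_le_of_lt (by positivity) h7
  rw [mul_assoc, inv_mul_cancel₀ h9.ne', mul_one] at h6
  have hn := (S.F k).pos
  have h10 : (2 : ℝ) ^ (η / 2 * (S.F k).n) < 2 ^ (η * (S.F k).n) := by
    apply Real.rpow_lt_rpow_of_exponent_lt (by norm_num)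
    nlinarith
  linarith

/-- all labels -/
theorem nsv_all [Finite κ] (hN : NG (LC.all S) X A) (hl : l.DMf A) (G : Fm l M D) (η : ℝ) (hη : 0 < η) :
    Tendsto (fun k => (l k).T.pb (fun ω => ¬ (G.g k ω).trace ≤ 2 ^ (η * (S.F k).n) *
      (vv (X.v k ((l k).p.π ω)) ⬝ᵥ (G.g k ω *ᵥ vv (X.v k ((l k).p.π ω)))))) UF (𝓝 0) :=
  nsv hN hl G (fun _ _ => Eventually.of_forall fun _ => trivial) η hη

/-- K-labels: the point is a literal function of `R` -/
theorem nsv_kz [Finite κ] {R : ∀ k, Setoid (S.F k).Ω} (hR : ∀ k ω ω', R k ω ω' → X.v k ω = X.v k ω')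
    (hN : NG (LC.kz fun k => fc (R k)) X A) (hl : l.DMf A) (hC : (LC.kz fun k => fc (R k)).ev l) (G : Fm l M D)
    (η : ℝ) (hη : 0 < η) :
    Tendsto (fun k => (l k).T.pb (fun ω => ¬ (G.g k ω).trace ≤ 2 ^ (η * (S.F k).n) *
      (vv (X.v k ((l k).p.π ω)) ⬝ᵥ (G.g k ω *ᵥ vv (X.v k ((l k).p.π ω)))))) UF (𝓝 0) :=
  nsv hN hl G (fun b hb => by
    filter_upwards [hC] with k hk
    exact Pool.Agent.Helper89.RAK.addW_kz (l k) _ (R k) hk fun ω ω' a a' hV hZ hr =>
      hb k ω ω' a a' hV hZ (hR k _ _ hr)) η hη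

end

end Pool.Agent.Helper26.BXD
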