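import Pool.Agent.Helper26.BXD.Dom
import Pool.Agent.Helper26.MT.Zw

/-! BOX DOMINATION: volumes. -/

set_option autoImplicit false

namespace Pool.Agent.Helper26.BXD

open Finset Filter Topology Matrix MvPolynomial Pool.Agent.Helper69.RK Pool.Agent.Helper31.EC
open Pool.Agent.Helper31.EC.Sp
open Pool.Agent.Helper40.EL Pool.Agent.Helper89.LX Pool.Agent.Helper3.LF Pool.Agent.Helper84.MT
open Pool.Agent.Helper95.LF Pool.Agent.Helper36.AM Pool.Agent.Helper7.GZ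
open Pool.Agent.Helper3.PR (cutm cutm_cpd cutFD)
open Pool.Agent.Helper14.MC (gx vx vx_UB vol_eq)
open Pool.Agent.Helper59.EV (sum_split_le)
open Pool.Agent.Helper89.RAK (DomJ)

noncomputable section

variable {S : Sp} {M D : ℕ}

/-- the mean from a typical upper bound -/
theorem ul_vx_le {κ' : Type} {A : κ' → Part S} {Q : S.VV M} {x : ∀ k, FD (S.F k) (Mon M D)} (hx : (gaq Q D).Adf A x)
    {v : ℝ} (hv : 0 ≤ v) (h : ∀ e : ℝ, 0 < e → Tendsto (fun k => (x k).l.T.pb (fun ω =>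
      ¬ gx Q k ((x k).l.p.π ω) ((x k).g ω) ≤ v + e)) UF (𝓝 0)) : ul (vx Q x) ≤ v := by
  obtain ⟨C, hC0, hC⟩ := gx_bd hx
  apply le_of_forall_pos_le_add
  intro e he
  have h2 := (h (e / 2) (by linarith)).const_mul C
  rw [mul_zero] at h2
  refine ul_le_const (vx_UB hx) ?_
  filter_upwards [hC, h2.eventually (gt_mem_nhds (show (0 : ℝ) < e / 2 by linarith))] with k a b
  have h3 := sum_split_le (F := (x k).l.T) (fun ω => gx Q k ((x k).l.p.π ω) ((x k).g ω))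
    (fun ω => gx Q k ((x k).l.p.π ω) ((x k).g ω) ≤ v + e / 2) (v + e / 2) C (by linarith) hC0 (fun ω _ h => h)
    (fun ω hω => (a ω hω).2)
  have h4 : vx Q x k = ∑ ω, (x k).l.T.μ ω * gx Q k ((x k).l.p.π ω) ((x k).g ω) := rfl
  have h5 : (x k).l.T.pb (fun ω => ¬ gx Q k ((x k).l.p.π ω) ((x k).g ω) ≤ v + e / 2) =
      mass (res (x k).l.T.μ (fun ω => ¬ gx Q k ((x k).l.p.π ω) ((x k).g ω) ≤ v + e / 2)) := rfl
  rw [h4]
  rw [h5] at b
  linarith

section vol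

variable {Q : S.VV M} {l : Lab S} {La : Fin M → ℝ} (f : Frm Q l La) {κ : ℕ}
  (hκ : ∀ k ω j, (f.P k ω j).totalDegree ≤ κ) {e : ℝ} {he : 0 < e} {κ₁ κ₂ : Type} [Finite κ₂]
  {A : κ₁ → Part S} {B : κ₂ → Part (l.ovr e he)} {C : LC S} {C' : LC (l.ovr e he)}

include hκ

/-- the exponents of the forms of a class without gain over the box -/
theorem box_gx (hD : 1 ≤ D) (hAB : ∀ i', ∃ i, PLe (l.up e he (A i)) (B i'))
    {x : ∀ k, FD (S.F k) (Mon M D)} (hx : (gaq Q D).Adf A x) (hC : C'.ev (l.ovl e he (lb x)))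
    (hN : NG C' (f.X.chg l.V e he) B) (η : ℝ) (hη : 0 < η) :
    Tendsto (fun k => (x k).l.T.pb (fun ω => ¬ gx Q k ((x k).l.p.π ω) ((x k).g ω) ≤ ∑ i, La i + η)) UF (𝓝 0) := by
  obtain ⟨Kp, hKp, hp⟩ := chart_pt f
  obtain ⟨Kx, hKx', hX⟩ := f.X.bd
  have hKx : S.Sub Kx := (sp_Sub l).mp hKx'
  obtain ⟨δ, hδ0, hδ⟩ : ∃ δ : ℝ, 0 < δ ∧ M * δ ≤ η / 2 := by
    refine ⟨η / (2 * (M + 1)), by positivity, ?_⟩
    rw [mul_div_assoc', div_le_div_iff₀ (by positivity) (by norm_num)]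
    nlinarith
  have key := pull_trace f hκ hAB hx hC hN δ hδ0
  have hcst : S.Sub (fun k => cQ M D ^ M * (Kp k + 1) ^ (2 * D * M) *
      (2 ^ M * (1 + cG M (D * (κ + 1)) (Kx k + 1) * (Fintype.card (Mon M (D * (κ + 1))) + 1)) ^ M)) := by
    have h1 := cQ_one M D
    exact ((S.Sub_const (by positivity)).mul (Sub_pow' (hKp.add (S.Sub_const zero_le_one)) _)).mul
      ((S.Sub_const (by positivity)).mul (Sub_pow' ((S.Sub_const zero_le_one).add
        ((Sub_cG (hKx.add (S.Sub_const zero_le_one))).mul (S.Sub_const (by positivity)))) M))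
  refine squeeze_zero' (Eventually.of_forall fun k => FSp.pb_nonneg _ _) ?_ key
  filter_upwards [hx 1 one_pos, hp, hX, hKp.1, hKx.1, hcst.eventually_le hη] with k a b b2 c c2 d
  rw [← pb_push ((l k).am (x k).l).p2 (fun ω => ¬ gx Q k ((x k).l.p.π ω) ((x k).g ω) ≤ ∑ i, La i + η)]
  apply FSp.pb_mono
  intro (w : ((l k).am (x k).l).sp.Ω) hw h1 h2
  apply h1
  have s1 := ((l k).am (x k).l).p1.supp w hw
  have s2 := ((l k).am (x k).l).p2.supp w hw
  have s3 : (l k).p.π (((l k).am (x k).l).p1.π w) = (x k).l.p.π (((l k).am (x k).l).p2.π w) :=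
    (((l k).am (x k).l).supp w hw).1
  have hC1 := (a.2.1 _ s2).1
  rw [cutm_pos hC1] at h2
  obtain ⟨X, hXe⟩ : ∃ X, X = f.X.v k (((l k).am (x k).l).p1.π w) := ⟨_, rfl⟩
  obtain ⟨G, hG⟩ : ∃ G, G = (x k).g (((l k).am (x k).l).p2.π w) := ⟨_, rfl⟩
  obtain ⟨P, hP⟩ : ∃ P, P = fP f k (((l k).am (x k).l).p1.π w) := ⟨_, rfl⟩
  rw [← hG] at hC1 h2 ⊢
  rw [← hP] at h2
  rw [← s3]
  have hr0 := S.dl_pos 1 k
  have hr1 : S.dl 1 k ≤ 1 := (S.dl_anti zero_le_one k).trans_eq (S.dl_zero k)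
  have hPd : ∀ i, (chp P (scl La S k) i).totalDegree ≤ κ + 1 := fun i => by
    rw [hP]
    exact chp_deg _ _ (fP_deg f hκ k _) i
  have q1 := GQ_sbf (chp P (scl La S k)) hPd (le_refl (D * (κ + 1))) hD G hC1.1 (fun v => hC1.2.1 v) (S.dl 1 k)
    (S.dl 1 k) X
  have q2 : (jac (chp P (scl La S k)) X).det = ∏ i, S.dl (La i) k := by
    rw [hP]
    exact jac_chp (fP_tri f k _) _ X
  have hs := sbf_symm (DD := D * (κ + 1)) (chp P (scl La S k)) (S.dl 1 k) hC1.1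
  have hn0 : ∀ v : Mon M (D * (κ + 1)) → ℝ, 0 ≤ v ⬝ᵥ (sbf (D * (κ + 1)) (chp P (scl La S k)) (S.dl 1 k) G *ᵥ v) :=
    fun v => sbf_nonneg (chp P (scl La S k)) (S.dl 1 k) (fun y => hC1.psd.2 y) v
  have q3 := GQ_le_trace hs hn0 hr0.le (R := Kx k + 1) (by linarith) X (fun i => by
    have := b2 _ s1 i
    rw [hXe]
    linarith)
  have q4 := GQ_comp G hC1.pdM (S.dl 1 k) (S.dl 1 k) (Kp k + 1) hr0 hr0.le (by linarith)
    (fun i => eval X (chp P (scl La S k) i)) (Q.v k ((l k).p.π (((l k).am (x k).l).p1.π w))) (fun i => by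
      rw [add_mul, one_mul, hXe, hP]
      exact add_le_add (b _ s1 i) le_rfl)
  have hn := (S.F k).pos
  have ht := trace_nonneg' hs hn0
  have hcG := cG_nonneg M (D * (κ + 1)) (Kx k + 1)
  have hp0 : (0 : ℝ) < ∏ i, S.dl (La i) k := Finset.prod_pos fun i _ => S.dl_pos _ _
  have e1 : (∏ i, S.dl (La i) k) ^ 2 = 2 ^ (-(2 * (∑ i, La i) * (S.F k).n)) := by
    have e2 : ∏ i, S.dl (La i) k = 2 ^ (-((∑ i, La i) * (S.F k).n)) := by
      unfold Sp.dl
      rw [← Real.rpow_sum_of_pos (by norm_num)]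
      congr 1
      rw [Finset.sum_neg_distrib, Finset.sum_mul]
    rw [e2, ← Real.rpow_natCast, ← Real.rpow_mul (by norm_num)]
    congr 1
    push_cast
    ring
  rw [q2, e1] at q1
  have q5 : (1 + cG M (D * (κ + 1)) (Kx k + 1) * (Fintype.card (Mon M (D * (κ + 1))) +
      (sbf (D * (κ + 1)) (chp P (scl La S k)) (S.dl 1 k) G).trace)) ^ M ≤
        (1 + cG M (D * (κ + 1)) (Kx k + 1) * (Fintype.card (Mon M (D * (κ + 1))) + 1)) ^ M *
          2 ^ (M * δ * (S.F k).n) := by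
    have e3 : (2 : ℝ) ^ (M * δ * (S.F k).n) = (2 ^ (δ * (S.F k).n)) ^ M := by
      rw [← Real.rpow_natCast, ← Real.rpow_mul (by norm_num)]
      congr 1
      ring
    rw [e3, ← mul_pow]
    apply pow_le_pow_left₀ (by positivity)
    have e4 : (1 : ℝ) ≤ 2 ^ (δ * (S.F k).n) := Real.one_le_rpow (by norm_num) (by positivity)
    have e5 : (0 : ℝ) ≤ Fintype.card (Mon M (D * (κ + 1))) := Nat.cast_nonneg _
    have e6 : (Fintype.card (Mon M (D * (κ + 1))) : ℝ) + (sbf (D * (κ + 1)) (chp P (scl La S k)) (S.dl 1 k) G).trace ≤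
        (Fintype.card (Mon M (D * (κ + 1))) + 1) * 2 ^ (δ * (S.F k).n) := by nlinarith
    have e7 := mul_le_mul_of_nonneg_left e6 hcG
    nlinarith
  have q6 : GQ (S.dl 1 k) G (Q.v k ((l k).p.π (((l k).am (x k).l).p1.π w))) ≤
      2 ^ (η * (S.F k).n) * (2 ^ (2 * (∑ i, La i) * (S.F k).n) * 2 ^ (M * δ * (S.F k).n)) := by
    have g1 : GQ (S.dl 1 k) G (fun i => eval X (chp P (scl La S k) i)) ≤
        2 ^ (2 * (∑ i, La i) * (S.F k).n) * (2 ^ M * ((1 + cG M (D * (κ + 1)) (Kx k + 1) *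
          (Fintype.card (Mon M (D * (κ + 1))) + 1)) ^ M * 2 ^ (M * δ * (S.F k).n))) := by
      have g2 : (2 : ℝ) ^ (2 * (∑ i, La i) * (S.F k).n) * (2 ^ (-(2 * (∑ i, La i) * (S.F k).n)) *
          GQ (S.dl 1 k) G (fun i => eval X (chp P (scl La S k) i))) =
            GQ (S.dl 1 k) G (fun i => eval X (chp P (scl La S k) i)) := by
        rw [← mul_assoc, ← Real.rpow_add (by norm_num), add_neg_cancel, Real.rpow_zero, one_mul]
      rw [← g2]
      apply mul_le_mul_of_nonneg_left _ (by positivity)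
      exact q1.trans (mul_le_mul_of_nonneg_left (q3.trans q5) (by positivity))
    have h0 := cQ_one M D
    refine q4.trans ((mul_le_mul_of_nonneg_left g1 (by positivity)).trans ?_)
    have g3 : cQ M D ^ M * (Kp k + 1) ^ (2 * D * M) * (2 ^ (2 * (∑ i, La i) * (S.F k).n) *
        (2 ^ M * ((1 + cG M (D * (κ + 1)) (Kx k + 1) * (Fintype.card (Mon M (D * (κ + 1))) + 1)) ^ M *
          2 ^ (M * δ * (S.F k).n)))) = (cQ M D ^ M * (Kp k + 1) ^ (2 * D * M) *
      (2 ^ M * (1 + cG M (D * (κ + 1)) (Kx k + 1) * (Fintype.card (Mon M (D * (κ + 1))) + 1)) ^ M)) *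
        (2 ^ (2 * (∑ i, La i) * (S.F k).n) * 2 ^ (M * δ * (S.F k).n)) := by ring
    rw [g3]
    exact mul_le_mul_of_nonneg_right (by linarith) (by positivity)
  have q7 : 0 < GQ (S.dl 1 k) G (Q.v k ((l k).p.π (((l k).am (x k).l).p1.π w))) :=
    lt_of_lt_of_le one_pos (one_le_GQ _ hC1.1 hC1.psd.2 _)
  have q8 := Real.logb_le_logb_of_le (b := 2) (by norm_num) q7 q6
  rw [Real.logb_mul (by positivity) (by positivity), Real.logb_mul (by positivity) (by positivity),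
    Real.logb_rpow (by norm_num) (by norm_num), Real.logb_rpow (by norm_num) (by norm_num),
    Real.logb_rpow (by norm_num) (by norm_num)] at q8
  show Real.logb 2 (GQ (S.dl 1 k) G (Q.v k ((l k).p.π (((l k).am (x k).l).p1.π w)))) / (2 * (S.F k).n) ≤ _
  rw [div_le_iff₀ (by positivity)]
  have q9 : M * δ * (S.F k).n ≤ η / 2 * (S.F k).n := mul_le_mul_of_nonneg_right hδ hn.le
  nlinarith

/-- VOLUMES of the forms of a class without gain over the box -/
theorem box_vol (h0 : ∀ i, 0 ≤ La i) (hAB : ∀ i', ∃ i, PLe (l.up e he (A i)) (B i'))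
    {x : ∀ k, FD (S.F k) (Mon M D)} (hx : (gaq Q D).Adf A x) (hC : C'.ev (l.ovl e he (lb x)))
    (hN : NG C' (f.X.chg l.V e he) B) : (M : ℝ) - ∑ i, La i ≤ vol Q D x := by
  have hs : 0 ≤ ∑ i, La i := Finset.sum_nonneg fun i _ => h0 i
  rcases Nat.eq_zero_or_pos D with rfl | hD
  · have h1 : vol Q 0 x = M := by rw [vol_deg_zero]
    rw [h1]
    linarith
  · have h1 := ul_vx_le hx hs (box_gx f hκ hD hAB hx hC hN)
    rw [vol_eq]
    linarith

end vol

end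

end Pool.Agent.Helper26.BXD
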